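import Mathlib

namespace Pool.Agent.Results.MP_6ac4e5_co.ExactValue

open Finset

/-- A family `A 0, …, A (m-1)` of subsets of an `n`-element set is intersection-distinct: the sets
are pairwise distinct and the sizes of the intersections of two members are pairwise different. -/
def IntersectionDistinct {n m : ℕ} (A : Fin m → Finset (Fin n)) : Prop :=
  Function.Injective A ∧
    ∀ i j k l : Fin m, i < j → k < l → (A i ∩ A j).card = (A k ∩ A l).card → i = k ∧ j = l

section Upper

variable {n m : ℕ} (B : Fin m → Finset (Fin n))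

/-- union-distinct families -/
def UD : Prop := Function.Injective B ∧
  ∀ i j k l : Fin m, i ≠ j → k ≠ l → (B i ∪ B j).card = (B k ∪ B l).card →
    (i = k ∧ j = l) ∨ (i = l ∧ j = k)

variable {B}

lemma UD.three (h : UD B) {i j k : Fin m} (hij : i ≠ j) (hik : i ≠ k) (hjk : j ≠ k) :
    (B i ∪ B k).card ≠ (B j ∪ B k).card := by
  intro he
  rcases h.2 i k j k hik hjk he with h1 | h1
  · exact hij h1.1
  · exact hik h1.1

lemma ud_of_id {A : Fin m → Finset (Fin n)} (hA : IntersectionDistinct A) :
    UD (fun i => (A i)ᶜ) := by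
  refine ⟨fun i j hij => hA.1 (compl_injective hij), ?_⟩
  intro i j k l hij hkl he
  have hc : ∀ a b : Fin m, ((A a)ᶜ ∪ (A b)ᶜ).card = n - (A a ∩ A b).card := by
    intro a b
    rw [← compl_inter, card_compl, Fintype.card_fin]
  have hle : ∀ a b : Fin m, (A a ∩ A b).card ≤ n := by
    intro a b
    simpa using card_le_univ (A a ∩ A b)
  have he' : (A i ∩ A j).card = (A k ∩ A l).card := by
    have := hc i j
    have := hc k l
    have := hle i j
    have := hle k l
    simp only at he
    omega
  rcases lt_or_gt_of_ne hij with h1 | h1 <;> rcases lt_or_gt_of_ne hkl with h2 | h2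
  · exact Or.inl (hA.2 i j k l h1 h2 he')
  · have := hA.2 i j l k h1 h2 (by rw [he', inter_comm])
    exact Or.inr this
  · have := hA.2 j i k l h1 h2 (by rw [← he', inter_comm])
    exact Or.inr ⟨this.2, this.1⟩
  · have := hA.2 j i l k h1 h2 (by rw [inter_comm, he', inter_comm])
    exact Or.inl ⟨this.2, this.1⟩

/-- the set of union sizes -/
def sizes (B : Fin m → Finset (Fin n)) : Finset ℕ :=
  (univ.filter (fun p : Fin m × Fin m => p.1 < p.2)).image (fun p => (B p.1 ∪ B p.2).card)

lemma card_pairs (m : ℕ) :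
    (univ.filter (fun p : Fin m × Fin m => p.1 < p.2)).card = m * (m - 1) / 2 := by
  have h1 : (univ.filter (fun p : Fin m × Fin m => p.1 < p.2)).card
      = ∑ j : Fin m, (univ.filter (fun i : Fin m => i < j)).card := by
    rw [card_filter, Fintype.sum_prod_type_right]
    apply sum_congr rfl
    intro j _
    rw [card_filter]
  rw [h1]
  have h2 : ∀ j : Fin m, (univ.filter (fun i : Fin m => i < j)).card = (j : ℕ) := by
    intro j
    have : (univ.filter (fun i : Fin m => i < j)) = Iio j := by
      ext i; simp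
    rw [this, Fin.card_Iio]
  rw [sum_congr rfl (fun j _ => h2 j), Fin.sum_univ_eq_sum_range (fun i => i) m, sum_range_id]

lemma card_sizes (h : UD B) : (sizes B).card = m * (m - 1) / 2 := by
  unfold sizes
  rw [card_image_of_injOn, card_pairs]
  intro p hp q hq he
  simp only [coe_filter, mem_univ, true_and, Set.mem_setOf_eq] at hp hq
  rcases h.2 p.1 p.2 q.1 q.2 hp.ne hq.ne he with h1 | h1
  · exact Prod.ext h1.1 h1.2
  · exfalso
    rw [h1.1, h1.2] at hp
    exact lt_asymm hp hq

lemma sizes_subset (h : UD B) : sizes B ⊆ Icc 1 n := by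
  intro v hv
  simp only [sizes, mem_image, mem_filter, mem_univ, true_and] at hv
  obtain ⟨p, hp, rfl⟩ := hv
  rw [mem_Icc]
  refine ⟨?_, by simpa using card_le_univ (B p.1 ∪ B p.2)⟩
  by_contra hc
  have h0 : B p.1 ∪ B p.2 = ∅ := by
    rw [← card_eq_zero]; omega
  rw [union_eq_empty] at h0
  exact hp.ne (h.1 (h0.1.trans h0.2.symm))

lemma mem_sizes {v : ℕ} (hv : v ∈ sizes B) : ∃ i j, i ≠ j ∧ (B i ∪ B j).card = v := by
  simp only [sizes, mem_image, mem_filter, mem_univ, true_and] at hv
  obtain ⟨p, hp, rfl⟩ := hv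
  exact ⟨p.1, p.2, hp.ne, rfl⟩

lemma upper1 (h : UD B) : m * (m - 1) / 2 ≤ n := by
  rw [← card_sizes h]
  simpa using card_le_card (sizes_subset h)

lemma exists_other {s : Finset (Fin m)} (hs : s.card < m) : ∃ k, k ∉ s := by
  by_contra hc
  push Not at hc
  have : s = univ := by ext; simp [hc]
  rw [this] at hs
  simp at hs

/-- if the union of two members is everything then each of them is large -/
lemma cover (h : UD B) {p q : Fin m} (hpq : B p ∪ B q = univ) : m ≤ (B p).card + 2 := by
  have hsub : (B q)ᶜ ⊆ B p := by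
    intro x hx
    have : x ∈ B p ∪ B q := by rw [hpq]; exact mem_univ x
    rw [mem_union] at this
    rw [mem_compl] at hx
    tauto
  have hc := card_le_card hsub
  have hinj : Set.InjOn (fun i => (B i \ B q).card) (univ.erase q : Finset (Fin m)) := by
    intro i hi j hj he
    by_contra hne
    simp only [coe_erase, Set.mem_diff, mem_coe, mem_univ, Set.mem_singleton_iff, true_and] at hi hj
    apply h.three hne hi hj
    rw [← card_sdiff_add_card, ← card_sdiff_add_card]
    simp only at he
    omega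
  have h1 : (univ.erase q).card ≤ (range ((B q)ᶜ.card + 1)).card := by
    apply card_le_card_of_injOn _ _ hinj
    intro i _
    simp only [coe_range, Set.mem_Iio]
    have : (B i \ B q) ⊆ (B q)ᶜ := by
      intro x hx
      rw [mem_sdiff] at hx
      rw [mem_compl]
      exact hx.2
    have := card_le_card this
    omega
  rw [card_erase_of_mem (mem_univ q), card_univ, Fintype.card_fin, card_range] at h1
  omega

lemma one_present (h : UD B) {i j : Fin m} (hij : i ≠ j) (hc : (B i ∪ B j).card = 1) :
    ∃ a b x, a ≠ b ∧ B a = ∅ ∧ B b = {x} := by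
  obtain ⟨x, hx⟩ := card_eq_one.1 hc
  have hi : B i ⊆ {x} := by rw [← hx]; exact subset_union_left
  have hj : B j ⊆ {x} := by rw [← hx]; exact subset_union_right
  rcases subset_singleton_iff.1 hi with h1 | h1 <;> rcases subset_singleton_iff.1 hj with h2 | h2
  · exact absurd (h.1 (h1.trans h2.symm)) hij
  · exact ⟨i, j, x, hij, h1, h2⟩
  · exact ⟨j, i, x, hij.symm, h2, h1⟩
  · exact absurd (h.1 (h1.trans h2.symm)) hij

lemma one_fact (h : UD B) {a b : Fin m} {x : Fin n} (hab : a ≠ b) (ha : B a = ∅) (hb : B b = {x})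
    {k : Fin m} (hka : k ≠ a) (hkb : k ≠ b) : x ∉ B k := by
  intro hx
  apply h.three hab hka.symm hkb.symm
  rw [ha, hb]
  congr 1
  ext y
  simp only [empty_union, mem_union, mem_singleton]
  constructor
  · tauto
  · rintro (rfl | hy) <;> assumption

lemma full_iff {s : Finset (Fin n)} (h : s.card = n) : s = univ := by
  rw [← card_eq_iff_eq_univ, h, Fintype.card_fin]

lemma one_n (h : UD B) (hm : 4 ≤ m) {i j : Fin m} (hij : i ≠ j) (hc : (B i ∪ B j).card = 1)
    {p q : Fin m} (hpq : p ≠ q) (hn : (B p ∪ B q).card = n) : False := by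
  obtain ⟨a, b, x, hab, ha, hb⟩ := one_present h hij hc
  have hf := full_iff hn
  -- wlog p = b
  have key : ∀ q : Fin m, q ≠ b → B b ∪ B q = univ → False := by
    intro q hqb hu
    by_cases hqa : q = a
    · subst hqa
      obtain ⟨k, hk⟩ := exists_other (s := {q, b}) (lt_of_le_of_lt (card_le_two) (by omega))
      simp only [mem_insert, mem_singleton, not_or] at hk
      have hxk := one_fact h hab ha hb hk.1 hk.2
      have : B k = ∅ := by
        rw [eq_empty_iff_forall_notMem]
        intro y hy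
        have : y ∈ B b ∪ B q := by rw [hu]; exact mem_univ y
        rw [ha, hb, union_empty, mem_singleton] at this
        exact hxk (this ▸ hy)
      exact hk.1 (h.1 (this.trans ha.symm))
    · obtain ⟨k, hk⟩ := exists_other (s := {a, b, q}) (lt_of_le_of_lt (card_le_three) (by omega))
      simp only [mem_insert, mem_singleton, not_or] at hk
      apply h.three (Ne.symm hk.1) (Ne.symm hqa) hk.2.2
      rw [ha, empty_union]
      congr 1
      symm
      rw [union_eq_right]
      intro y hy
      have hyx : y ≠ x := by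
        rintro rfl
        exact one_fact h hab ha hb hk.1 hk.2.1 hy
      have : y ∈ B b ∪ B q := by rw [hu]; exact mem_univ y
      rw [hb, mem_union, mem_singleton] at this
      tauto
  have hx : x ∈ B p ∪ B q := by rw [hf]; exact mem_univ x
  have hnot : ∀ k, k ≠ b → x ∉ B k := by
    intro k hk
    by_cases hka : k = a
    · rw [hka, ha]; exact notMem_empty x
    · exact one_fact h hab ha hb hka hk
  by_cases hp : p = b
  · subst hp
    exact key q hpq.symm hf
  · by_cases hq : q = b
    · subst hq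
      exact key p hpq (by rw [union_comm]; exact hf)
    · rw [mem_union] at hx
      rcases hx with hx | hx
      · exact hnot p hp hx
      · exact hnot q hq hx

lemma card_ne (h : UD B) {a k l : Fin m} (ha : B a = ∅) (hk : k ≠ a) (hl : l ≠ a) (hkl : k ≠ l) :
    (B k).card ≠ (B l).card := by
  have := h.three hkl hk hl
  rwa [ha, union_empty, union_empty] at this

lemma one_two (h : UD B) (hm : 5 ≤ m) {i j : Fin m} (hij : i ≠ j) (hc : (B i ∪ B j).card = 1)
    {k l : Fin m} (hkl : k ≠ l) (h2 : (B k ∪ B l).card = 2)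
    {p q : Fin m} (hpq : p ≠ q) (hn : (B p ∪ B q).card = n - 1) : False := by
  have hn10 : 10 ≤ n := by
    have h1 := upper1 h
    have h3 : 5 * (5 - 1) / 2 ≤ m * (m - 1) / 2 :=
      Nat.div_le_div_right (Nat.mul_le_mul hm (Nat.sub_le_sub_right hm 1))
    omega
  obtain ⟨a, b, x, hab, ha, hb⟩ := one_present h hij hc
  have hb1 : (B b).card = 1 := by rw [hb]; simp
  have hx : ∀ k, k ≠ b → x ∉ B k := by
    intro k hk
    by_cases hka : k = a
    · rw [hka, ha]; exact notMem_empty x
    · exact one_fact h hab ha hb hka hk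
  -- any other set has at least two elements
  have hbig : ∀ k, k ≠ a → k ≠ b → 2 ≤ (B k).card := by
    intro k hka hkb
    have h0 : (B k).card ≠ 0 := by
      intro h0
      exact hka (h.1 ((card_eq_zero.1 h0).trans ha.symm))
    have h1 := card_ne h ha hka hab.symm hkb
    omega
  obtain ⟨c, hca, hcb, hc2⟩ : ∃ c, c ≠ a ∧ c ≠ b ∧ (B c).card = 2 := by
    by_cases hk : k ≠ a ∧ k ≠ b
    · refine ⟨k, hk.1, hk.2, ?_⟩
      have := hbig k hk.1 hk.2
      have := card_le_card (subset_union_left : B k ⊆ B k ∪ B l)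
      omega
    by_cases hl : l ≠ a ∧ l ≠ b
    · refine ⟨l, hl.1, hl.2, ?_⟩
      have := hbig l hl.1 hl.2
      have := card_le_card (subset_union_right : B l ⊆ B k ∪ B l)
      omega
    exfalso
    have : B k ∪ B l = {x} := by
      have hk' : k = a ∨ k = b := by tauto
      have hl' : l = a ∨ l = b := by tauto
      rcases hk' with rfl | rfl <;> rcases hl' with rfl | rfl
      · exact absurd rfl hkl
      · rw [ha, hb, empty_union]
      · rw [ha, hb, union_empty]
      · exact absurd rfl hkl
    rw [this, card_singleton] at h2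
    omega
  have hdisj : ∀ k, k ≠ c → Disjoint (B c) (B k) := by
    intro k hkc
    by_cases hka : k = a
    · rw [hka, ha]; exact disjoint_empty_right _
    by_cases hkb : k = b
    · rw [hkb, hb, disjoint_singleton_right]
      exact hx c hcb
    have e1 := h.three hca (Ne.symm hkc) (Ne.symm hka)
    have e2 := h.three hcb (Ne.symm hkc) (Ne.symm hkb)
    rw [ha, empty_union, ← card_sdiff_add_card] at e1
    rw [hb, ← card_sdiff_add_card (s := B c), ← card_sdiff_add_card (s := {x})] at e2
    have e6 : (({x} : Finset (Fin n)) \ B k).card = 1 := by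
      rw [sdiff_eq_self_of_disjoint (by rw [disjoint_singleton_left]; exact hx k hkb),
        card_singleton]
    have e3 : (B c \ B k).card = (B c).card := by
      have := card_le_card (sdiff_subset : B c \ B k ⊆ B c)
      omega
    rw [disjoint_iff_inter_eq_empty, ← card_eq_zero]
    have := card_sdiff_add_card_inter (B c) (B k)
    omega
  -- the value n-1
  have key : ∀ q, q ≠ c → (B c ∪ B q).card = n - 1 → False := by
    intro q hqc hq
    rw [card_union_of_disjoint (hdisj q hqc), hc2] at hq
    have hqa : q ≠ a := by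
      rintro rfl
      rw [ha, card_empty] at hq; omega
    have hqb : q ≠ b := by
      rintro rfl
      rw [hb1] at hq; omega
    obtain ⟨k, hk⟩ := exists_other (s := {a, b, c, q}) (lt_of_le_of_lt (card_le_four) (by omega))
    simp only [mem_insert, mem_singleton, not_or] at hk
    apply h.three (Ne.symm hk.1) (Ne.symm hqa) hk.2.2.2
    rw [ha, empty_union]
    congr 1
    symm
    rw [union_eq_right]
    intro y hy
    by_contra hyq
    have hyx : y ≠ x := by
      rintro rfl
      exact hx k hk.2.1 hy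
    have hyc : y ∉ B c := by
      intro hyc
      exact disjoint_left.1 (hdisj k hk.2.2.1) hyc hy
    have h1 : (insert y (insert x (B c ∪ B q))).card = n + 1 := by
      rw [card_insert_of_notMem, card_insert_of_notMem, card_union_of_disjoint (hdisj q hqc), hc2]
      · omega
      · rw [mem_union, not_or]; exact ⟨hx c hcb, hx q hqb⟩
      · rw [mem_insert, mem_union]; tauto
    have h2 := card_le_univ (insert y (insert x (B c ∪ B q)))
    rw [Fintype.card_fin] at h2
    omega
  by_cases hp : p = c
  · subst hp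
    exact key q hpq.symm hn
  by_cases hq : q = c
  · subst hq
    exact key p hpq (by rw [union_comm]; exact hn)
  have h1 : Disjoint (B c) (B p ∪ B q) := by
    rw [disjoint_union_right]
    exact ⟨hdisj p hp, hdisj q hq⟩
  have h2 := card_le_univ (B c ∪ (B p ∪ B q))
  rw [card_union_of_disjoint h1, Fintype.card_fin] at h2
  omega

lemma pair_cases {s : Finset (Fin n)} {x y : Fin n} (hs : s ⊆ {x, y}) :
    s = ∅ ∨ s = {x} ∨ s = {y} ∨ s = {x, y} := by
  rcases (subset_insert_iff.1 hs) with h1
  by_cases hx : x ∈ s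
  · by_cases hy : y ∈ s
    · right; right; right
      apply subset_antisymm hs
      intro z hz
      rw [mem_insert, mem_singleton] at hz
      rcases hz with rfl | rfl <;> assumption
    · right; left
      ext z
      constructor
      · intro hz
        have := hs hz
        rw [mem_insert, mem_singleton] at this
        rcases this with rfl | rfl
        · exact mem_singleton_self _
        · exact absurd hz hy
      · intro hz
        rw [mem_singleton] at hz
        exact hz ▸ hx
  · by_cases hy : y ∈ s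
    · right; right; left
      ext z
      constructor
      · intro hz
        have := hs hz
        rw [mem_insert, mem_singleton] at this
        rcases this with rfl | rfl
        · exact absurd hz hx
        · exact mem_singleton_self _
      · intro hz
        rw [mem_singleton] at hz
        exact hz ▸ hy
    · left
      rw [eq_empty_iff_forall_notMem]
      intro z hz
      have := hs hz
      rw [mem_insert, mem_singleton] at this
      rcases this with rfl | rfl
      · exact hx hz
      · exact hy hz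

lemma two_present (h : UD B) {k l : Fin m} (hkl : k ≠ l) (h2 : (B k ∪ B l).card = 2) :
    ∃ a b x y, a ≠ b ∧ x ≠ y ∧ ((B a = ∅ ∧ B b = {x, y}) ∨ (B a = {x} ∧ B b = {x, y}) ∨
      (B a = {x} ∧ B b = {y})) := by
  obtain ⟨x, y, hxy, he⟩ := card_eq_two.1 h2
  have hk : B k ⊆ {x, y} := by rw [← he]; exact subset_union_left
  have hl : B l ⊆ {x, y} := by rw [← he]; exact subset_union_right
  have hne : B k ≠ B l := fun e => hkl (h.1 e)
  rcases pair_cases hk with h1 | h1 | h1 | h1 <;> rcases pair_cases hl with h3 | h3 | h3 | h3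
  · exact absurd (h1.trans h3.symm) hne
  · rw [h1, h3] at h2; simp at h2
  · rw [h1, h3] at h2; simp at h2
  · exact ⟨k, l, x, y, hkl, hxy, Or.inl ⟨h1, h3⟩⟩
  · rw [h1, h3] at h2; simp at h2
  · exact absurd (h1.trans h3.symm) hne
  · exact ⟨k, l, x, y, hkl, hxy, Or.inr (Or.inr ⟨h1, h3⟩)⟩
  · exact ⟨k, l, x, y, hkl, hxy, Or.inr (Or.inl ⟨h1, h3⟩)⟩
  · rw [h1, h3] at h2; simp at h2
  · exact ⟨k, l, y, x, hkl, hxy.symm, Or.inr (Or.inr ⟨h1, h3⟩)⟩
  · exact absurd (h1.trans h3.symm) hne
  · exact ⟨k, l, y, x, hkl, hxy.symm, Or.inr (Or.inl ⟨h1, by rw [h3, pair_comm]⟩)⟩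
  · exact ⟨l, k, x, y, hkl.symm, hxy, Or.inl ⟨h3, h1⟩⟩
  · exact ⟨l, k, x, y, hkl.symm, hxy, Or.inr (Or.inl ⟨h3, h1⟩)⟩
  · exact ⟨l, k, y, x, hkl.symm, hxy.symm, Or.inr (Or.inl ⟨h3, by rw [h1, pair_comm]⟩)⟩
  · exact absurd (h1.trans h3.symm) hne

/-- a three-element member that is hit in at most one point by the two sets `B p`, `B q`
cannot be covered by them -/
lemma not_cover {s t u : Finset (Fin n)} (hs : s.card = 3) (h1 : 2 ≤ (s \ t).card)
    (h2 : 2 ≤ (s \ u).card) (hc : t ∪ u = univ) : False := by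
  have e1 := card_sdiff_add_card_inter s t
  have e2 := card_sdiff_add_card_inter s u
  have e3 : s ⊆ (s ∩ t) ∪ (s ∩ u) := by
    intro z hz
    have : z ∈ t ∪ u := by rw [hc]; exact mem_univ z
    rw [mem_union] at this
    rw [mem_union, mem_inter, mem_inter]
    tauto
  have e4 := card_le_card e3
  have e5 := card_union_le (s ∩ t) (s ∩ u)
  omega

lemma two_three (h : UD B) (hm : 6 ≤ m) (h1 : ∀ i j, i ≠ j → (B i ∪ B j).card ≠ 1)
    {k l : Fin m} (hkl : k ≠ l) (h2 : (B k ∪ B l).card = 2)
    {k' l' : Fin m} (hkl' : k' ≠ l') (h3 : (B k' ∪ B l').card = 3)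
    {p q : Fin m} (hpq : p ≠ q) (hn : (B p ∪ B q).card = n) : False := by
  have hf := full_iff hn
  have hcp := cover h hf
  have hcq := cover h (p := q) (q := p) (by rw [union_comm]; exact hf)
  obtain ⟨a, b, x, y, hab, hxy, hcase⟩ := two_present h hkl h2
  rcases hcase with ⟨ha, hb⟩ | ⟨ha, hb⟩ | ⟨ha, hb⟩
  · -- empty set and a pair
    have ha0 : (B a).card = 0 := by rw [ha]; simp
    have hb2 : (B b).card = 2 := by rw [hb, card_pair hxy]
    have hbig : ∀ k, k ≠ a → k ≠ b → 3 ≤ (B k).card := by
      intro k hka hkb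
      have e0 : (B k).card ≠ 0 := by
        intro h0
        exact hka (h.1 ((card_eq_zero.1 h0).trans ha.symm))
      have e1 := h1 k a hka
      rw [ha, union_empty] at e1
      have e2 := card_ne h ha hka hab.symm hkb
      omega
    obtain ⟨c, hca, hcb, hc3⟩ : ∃ c, c ≠ a ∧ c ≠ b ∧ (B c).card = 3 := by
      by_cases hk : k' ≠ a ∧ k' ≠ b
      · refine ⟨k', hk.1, hk.2, ?_⟩
        have := hbig k' hk.1 hk.2
        have := card_le_card (subset_union_left : B k' ⊆ B k' ∪ B l')
        omega
      by_cases hl : l' ≠ a ∧ l' ≠ b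
      · refine ⟨l', hl.1, hl.2, ?_⟩
        have := hbig l' hl.1 hl.2
        have := card_le_card (subset_union_right : B l' ⊆ B k' ∪ B l')
        omega
      exfalso
      have : (B k' ∪ B l').card = 2 := by
        have hk' : k' = a ∨ k' = b := by tauto
        have hl' : l' = a ∨ l' = b := by tauto
        rcases hk' with rfl | rfl <;> rcases hl' with rfl | rfl
        · exact absurd rfl hkl'
        · rw [ha, empty_union, hb2]
        · rw [ha, union_empty, hb2]
        · exact absurd rfl hkl'
      omega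
    have hthree : ∀ k, k ≠ a → k ≠ b → k ≠ c → (B b ∩ B k).card ≤ 1 ∧
        ((B b ∩ B k).card = 1 → 2 ≤ (B c \ B k).card) := by
      intro k hka hkb hkc
      have e1 := h.three hab.symm (Ne.symm hkb) (Ne.symm hka)
      have e2 := h.three hca (Ne.symm hkc) (Ne.symm hka)
      have e3 := h.three hcb (Ne.symm hkc) (Ne.symm hkb)
      rw [ha, empty_union, ← card_sdiff_add_card] at e1 e2
      rw [← card_sdiff_add_card, ← card_sdiff_add_card] at e3
      have e4 := card_sdiff_add_card_inter (B b) (B k)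
      omega
    have hp : p ≠ a ∧ p ≠ b ∧ p ≠ c := by
      refine ⟨?_, ?_, ?_⟩ <;> rintro rfl <;> omega
    have hq : q ≠ a ∧ q ≠ b ∧ q ≠ c := by
      refine ⟨?_, ?_, ?_⟩ <;> rintro rfl <;> omega
    have tp := hthree p hp.1 hp.2.1 hp.2.2
    have tq := hthree q hq.1 hq.2.1 hq.2.2
    have hbpq : (B b).card ≤ (B b ∩ B p).card + (B b ∩ B q).card := by
      have e3 : B b ⊆ (B b ∩ B p) ∪ (B b ∩ B q) := by
        intro z hz
        have : z ∈ B p ∪ B q := by rw [hf]; exact mem_univ z
        rw [mem_union] at this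
        rw [mem_union, mem_inter, mem_inter]
        tauto
      exact (card_le_card e3).trans (card_union_le _ _)
    exact not_cover hc3 (tp.2 (by omega)) (tq.2 (by omega)) hf
  · -- {x} and {x,y}
    have hy : ∀ k, k ≠ b → y ∉ B k := by
      intro k hkb
      by_cases hka : k = a
      · rw [hka, ha, mem_singleton]; exact hxy.symm
      intro hyk
      apply h.three hab (Ne.symm hka) (Ne.symm hkb)
      rw [ha, hb]
      congr 1
      ext z
      simp only [mem_union, mem_insert, mem_singleton]
      constructor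
      · tauto
      · rintro ((hz | rfl) | hz)
        · exact Or.inl hz
        · exact Or.inr hyk
        · exact Or.inr hz
    have hb2 : (B b).card = 2 := by rw [hb, card_pair hxy]
    have hyu : y ∈ B p ∪ B q := by rw [hf]; exact mem_univ y
    have hpb : p ≠ b := by rintro rfl; omega
    have hqb : q ≠ b := by rintro rfl; omega
    rw [mem_union] at hyu
    rcases hyu with h5 | h5
    · exact hy p hpb h5
    · exact hy q hqb h5
  · -- {x} and {y}
    have ha1 : (B a).card = 1 := by rw [ha]; simp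
    have hb1 : (B b).card = 1 := by rw [hb]; simp
    have hab2 : (B a ∪ B b).card = 2 := by
      rw [ha, hb]
      exact card_pair hxy
    have hxk : ∀ k, k ≠ a → k ≠ b →
        ({(B a ∪ B k).card, (B b ∪ B k).card} : Finset ℕ) = {(B k).card, (B k).card + 1} := by
      intro k hka hkb
      have e1 := h.three hab (Ne.symm hka) (Ne.symm hkb)
      have e2 : (B a ∪ B k).card = (B k).card ∨ (B a ∪ B k).card = (B k).card + 1 := by
        rw [ha]
        by_cases hx : x ∈ B k
        · left; congr 1; rw [union_eq_right]; simpa using hx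
        · right
          rw [← insert_eq, card_insert_of_notMem hx]
      have e3 : (B b ∪ B k).card = (B k).card ∨ (B b ∪ B k).card = (B k).card + 1 := by
        rw [hb]
        by_cases hx : y ∈ B k
        · left; congr 1; rw [union_eq_right]; simpa using hx
        · right
          rw [← insert_eq, card_insert_of_notMem hx]
      rcases e2 with e2 | e2 <;> rcases e3 with e3 | e3
      · omega
      · rw [e2, e3]
      · rw [e2, e3, pair_comm]
      · omega
    -- consequence: any v which is card or card+1 is attained by a or b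
    have hatt : ∀ k, k ≠ a → k ≠ b → ∀ v, (v = (B k).card ∨ v = (B k).card + 1) →
        ((B a ∪ B k).card = v ∨ (B b ∪ B k).card = v) := by
      intro k hka hkb v hv
      have e1 : v ∈ ({(B a ∪ B k).card, (B b ∪ B k).card} : Finset ℕ) := by
        rw [hxk k hka hkb, mem_insert, mem_singleton]
        exact hv
      rw [mem_insert, mem_singleton] at e1
      rcases e1 with e1 | e1
      · exact Or.inl e1.symm
      · exact Or.inr e1.symm
    have hbig : ∀ k, k ≠ a → k ≠ b → 3 ≤ (B k).card := by
      intro k hka hkb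
      by_contra hlt
      have hno : ∀ v, (v = (B k).card ∨ v = (B k).card + 1) → v ≠ 2 := by
        intro v hv hv2
        rcases hatt k hka hkb v hv with e | e
        · rcases h.2 a k a b (Ne.symm hka) hab (by rw [e, hab2, hv2]) with e5 | e5
          · exact hkb e5.2
          · exact hka e5.2
        · rcases h.2 b k a b (Ne.symm hkb) hab (by rw [e, hab2, hv2]) with e5 | e5
          · exact hkb e5.2
          · exact hka e5.2
      have n1 := hno (B k).card (Or.inl rfl)
      have n2 := hno ((B k).card + 1) (Or.inr rfl)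
      have hk0 : (B k).card = 0 := by omega
      rcases hatt k hka hkb 1 (Or.inr (by omega)) with e | e
      · rcases hatt k hka hkb 0 (Or.inl (by omega)) with e' | e'
        · omega
        · have := card_le_card (subset_union_left : B b ⊆ B b ∪ B k)
          omega
      · rcases hatt k hka hkb 0 (Or.inl (by omega)) with e' | e'
        · have := card_le_card (subset_union_left : B a ⊆ B a ∪ B k)
          omega
        · omega
    obtain ⟨c, hca, hcb, hc3⟩ : ∃ c, c ≠ a ∧ c ≠ b ∧ (B c).card = 3 := by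
      by_cases hk : k' ≠ a ∧ k' ≠ b
      · refine ⟨k', hk.1, hk.2, ?_⟩
        have := hbig k' hk.1 hk.2
        have := card_le_card (subset_union_left : B k' ⊆ B k' ∪ B l')
        omega
      by_cases hl : l' ≠ a ∧ l' ≠ b
      · refine ⟨l', hl.1, hl.2, ?_⟩
        have := hbig l' hl.1 hl.2
        have := card_le_card (subset_union_right : B l' ⊆ B k' ∪ B l')
        omega
      exfalso
      have : (B k' ∪ B l').card = 2 := by
        have hk' : k' = a ∨ k' = b := by tauto
        have hl' : l' = a ∨ l' = b := by tauto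
        rcases hk' with rfl | rfl <;> rcases hl' with rfl | rfl
        · exact absurd rfl hkl'
        · exact hab2
        · rw [union_comm]; exact hab2
        · exact absurd rfl hkl'
      omega
    have hthree : ∀ k, k ≠ a → k ≠ b → k ≠ c → 2 ≤ (B c \ B k).card := by
      intro k hka hkb hkc
      have e2 := h.three hca (Ne.symm hkc) (Ne.symm hka)
      have e3 := h.three hcb (Ne.symm hkc) (Ne.symm hkb)
      have e4 := card_sdiff_add_card (B c) (B k)
      by_contra hlt
      rcases hatt k hka hkb (B c ∪ B k).card (by omega) with e | e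
      · exact e2 e.symm
      · exact e3 e.symm
    have hp : p ≠ a ∧ p ≠ b ∧ p ≠ c := by
      refine ⟨?_, ?_, ?_⟩ <;> rintro rfl <;> omega
    have hq : q ≠ a ∧ q ≠ b ∧ q ≠ c := by
      refine ⟨?_, ?_, ?_⟩ <;> rintro rfl <;> omega
    exact not_cover hc3 (hthree p hp.1 hp.2.1 hp.2.2) (hthree q hq.1 hq.2.1 hq.2.2) hf

lemma upper2 (h : UD B) (hm : 4 ≤ m) : m * (m - 1) / 2 + 1 ≤ n := by
  by_contra hlt
  have h1 := upper1 h
  have h6 : 4 * (4 - 1) / 2 ≤ m * (m - 1) / 2 :=
    Nat.div_le_div_right (Nat.mul_le_mul hm (Nat.sub_le_sub_right hm 1))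
  have heq : sizes B = Icc 1 n := by
    apply eq_of_subset_of_card_le (sizes_subset h)
    rw [card_sizes h, Nat.card_Icc]
    omega
  have m1 : 1 ∈ sizes B := by rw [heq, mem_Icc]; omega
  have mn : n ∈ sizes B := by rw [heq, mem_Icc]; omega
  obtain ⟨i, j, hij, e1⟩ := mem_sizes m1
  obtain ⟨p, q, hpq, e2⟩ := mem_sizes mn
  exact one_n h hm hij e1 hpq e2

lemma upper3 (h : UD B) (hm : 6 ≤ m) : m * (m - 1) / 2 + 2 ≤ n := by
  by_contra hlt
  have h1 := upper1 h
  have h6 : 6 * (6 - 1) / 2 ≤ m * (m - 1) / 2 :=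
    Nat.div_le_div_right (Nat.mul_le_mul hm (Nat.sub_le_sub_right hm 1))
  have hmiss : ∀ v w, v ∈ Icc 1 n → w ∈ Icc 1 n → v ≠ w → v ∉ sizes B → w ∈ sizes B := by
    intro v w hv hw hvw hvs
    by_contra hws
    have hsub : sizes B ⊆ ((Icc 1 n).erase v).erase w := by
      intro z hz
      rw [mem_erase, mem_erase]
      refine ⟨?_, ?_, sizes_subset h hz⟩
      · rintro rfl; exact hws hz
      · rintro rfl; exact hvs hz
    have hc := card_le_card hsub
    rw [card_erase_of_mem (mem_erase.2 ⟨hvw.symm, hw⟩), card_erase_of_mem hv, Nat.card_Icc,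
      card_sizes h] at hc
    omega
  by_cases m1 : 1 ∈ sizes B
  · obtain ⟨i, j, hij, e1⟩ := mem_sizes m1
    by_cases mn : n ∈ sizes B
    · obtain ⟨p, q, hpq, e2⟩ := mem_sizes mn
      exact one_n h (by omega) hij e1 hpq e2
    · have m2 : 2 ∈ sizes B :=
        hmiss n 2 (by rw [mem_Icc]; omega) (by rw [mem_Icc]; omega) (by omega) mn
      have m3 : n - 1 ∈ sizes B :=
        hmiss n (n - 1) (by rw [mem_Icc]; omega) (by rw [mem_Icc]; omega) (by omega) mn
      obtain ⟨k, l, hkl, e2⟩ := mem_sizes m2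
      obtain ⟨p, q, hpq, e3⟩ := mem_sizes m3
      exact one_two h (by omega) hij e1 hkl e2 hpq e3
  · have m2 : 2 ∈ sizes B :=
      hmiss 1 2 (by rw [mem_Icc]; omega) (by rw [mem_Icc]; omega) (by omega) m1
    have m3 : 3 ∈ sizes B :=
      hmiss 1 3 (by rw [mem_Icc]; omega) (by rw [mem_Icc]; omega) (by omega) m1
    have mn : n ∈ sizes B :=
      hmiss 1 n (by rw [mem_Icc]; omega) (by rw [mem_Icc]; omega) (by omega) m1
    obtain ⟨k, l, hkl, e2⟩ := mem_sizes m2
    obtain ⟨k', l', hkl', e3⟩ := mem_sizes m3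
    obtain ⟨p, q, hpq, e4⟩ := mem_sizes mn
    refine two_three h hm ?_ hkl e2 hkl' e3 hpq e4
    intro i j hij he
    apply m1
    simp only [sizes, mem_image, mem_filter, mem_univ, true_and]
    rcases lt_or_gt_of_ne hij with h5 | h5
    · exact ⟨(i, j), h5, he⟩
    · exact ⟨(j, i), h5, by rw [union_comm]; exact he⟩

end Upper

section Lower

lemma realize {α : Type} [DecidableEq α] {m n : ℕ} (S : ℕ → Finset α) (U : Finset α)
    (hU : ∀ j, 1 ≤ j → j ≤ m → S j ⊆ U) (hc : U.card ≤ n)
    (hinj : ∀ i j, 1 ≤ i → i < j → j ≤ m → S i ≠ S j)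
    (hd : ∀ i j k l, 1 ≤ i → i < j → j ≤ m → 1 ≤ k → k < l → l ≤ m →
      (S i ∪ S j).card = (S k ∪ S l).card → i = k ∧ j = l) :
    ∃ A : Fin m → Finset (Fin n), IntersectionDistinct A := by
  have hcard : Fintype.card U ≤ Fintype.card (Fin n) := by simpa using hc
  obtain ⟨e⟩ := Function.Embedding.nonempty_of_card_le hcard
  let g : Finset α → Finset (Fin n) := fun T => (univ.filter (fun x : U => (x : α) ∈ T)).map e
  have gu : ∀ T T', g (T ∪ T') = g T ∪ g T' := by
    intro T T'
    simp only [g, ← map_union, ← filter_or, mem_union]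
  have gc : ∀ T, T ⊆ U → (g T).card = T.card := by
    intro T hT
    simp only [g, card_map]
    apply card_bij (fun (x : U) _ => (x : α))
    · intro x hx; simpa using hx
    · intro x _ y _ hxy; exact Subtype.ext hxy
    · intro x hx; exact ⟨⟨x, hT hx⟩, by simpa using hx, rfl⟩
  have gi : ∀ T T', T ⊆ U → T' ⊆ U → g T = g T' → T = T' := by
    intro T T' hT hT' he
    have he' := map_injective e he
    ext x
    constructor
    · intro hx
      have : (⟨x, hT hx⟩ : U) ∈ (univ.filter (fun x : U => (x : α) ∈ T)) := by simpa using hx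
      rw [he'] at this
      simpa using this
    · intro hx
      have : (⟨x, hT' hx⟩ : U) ∈ (univ.filter (fun x : U => (x : α) ∈ T')) := by simpa using hx
      rw [← he'] at this
      simpa using this
  refine ⟨fun i => (g (S (i + 1)))ᶜ, ?_, ?_⟩
  · intro i j hij
    have h1 := compl_injective hij
    have h2 := gi _ _ (hU _ (by omega) (by omega)) (hU _ (by omega) (by omega)) h1
    by_contra hne
    have hne' : (i : ℕ) ≠ j := fun h => hne (Fin.ext h)
    rcases lt_or_gt_of_ne hne' with h | h
    · exact hinj (i + 1) (j + 1) (by omega) (by omega) (by omega) h2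
    · exact hinj (j + 1) (i + 1) (by omega) (by omega) (by omega) h2.symm
  · intro i j k l hij hkl he
    have hcc : ∀ a b : Fin m, ((g (S (a + 1)))ᶜ ∩ (g (S (b + 1)))ᶜ).card
        = n - (S (a + 1) ∪ S (b + 1)).card := by
      intro a b
      rw [← compl_union, card_compl, Fintype.card_fin, ← gu, gc]
      exact union_subset (hU _ (by omega) (by omega)) (hU _ (by omega) (by omega))
    have hle : ∀ a b : Fin m, (S (a + 1) ∪ S (b + 1)).card ≤ n := by
      intro a b
      exact (card_le_card (union_subset (hU _ (by omega) (by omega))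
        (hU _ (by omega) (by omega)))).trans hc
    rw [hcc, hcc] at he
    have h1 := hle i j
    have h2 := hle k l
    have h3 := hd (i + 1) (j + 1) (k + 1) (l + 1) (by omega) (by omega) (by omega) (by omega)
      (by omega) (by omega) (by omega)
    exact ⟨Fin.ext (by omega), Fin.ext (by omega)⟩

/-- the sizes of the complements in the construction -/
def bsz (j : ℕ) : ℕ := (j - 1).choose 2 + 2

lemma bsz_succ {j : ℕ} (hj : 1 ≤ j) : bsz (j + 1) = bsz j + (j - 1) := by
  unfold bsz
  obtain ⟨t, rfl⟩ : ∃ t, j = t + 1 := ⟨j - 1, by omega⟩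
  simp only [Nat.add_sub_cancel]
  have h := Nat.choose_succ_succ' t 1
  rw [Nat.choose_one_right] at h
  simp only [Nat.reduceAdd] at h
  omega

lemma bsz_lt {j l : ℕ} (hj : 1 ≤ j) (hl : j < l) : bsz j + (j - 1) ≤ bsz l := by
  induction l, hl using Nat.le_induction with
  | base => rw [← bsz_succ hj]
  | succ l hl ih =>
    rw [bsz_succ (by omega)]
    omega

lemma key {α : Type} [DecidableEq α] {m n : ℕ} (S : ℕ → Finset α) (U : Finset α)
    (hU : ∀ j, 1 ≤ j → j ≤ m → S j ⊆ U) (hc : U.card ≤ n)
    (h1 : S 1 = ∅) (hs : ∀ j, 2 ≤ j → j ≤ m → (S j).card = bsz j)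
    (hδ : ∀ i j, 1 ≤ i → i < j → j ≤ m → (S i \ S j).card ≤ j - 2)
    (hinj : ∀ i i' j, 1 ≤ i → i < i' → i' < j → j ≤ m → (S i \ S j).card ≠ (S i' \ S j).card) :
    ∃ A : Fin m → Finset (Fin n), IntersectionDistinct A := by
  apply realize S U hU hc
  · intro i j hi hij hj he
    have h2 := hs j (by omega) hj
    rcases Nat.eq_or_lt_of_le hi with h | h
    · subst h
      rw [h1] at he
      rw [← he, card_empty] at h2
      unfold bsz at h2
      omega
    · have h3 := hs i (by omega) (by omega)
      have h4 := bsz_lt (by omega : 1 ≤ i) hij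
      rw [he] at h3
      omega
  · intro i j k l hi hij hj hk hkl hl he
    have e1 : (S i ∪ S j).card = (S i \ S j).card + bsz j := by
      rw [← hs j (by omega) hj, card_sdiff_add_card]
    have e2 : (S k ∪ S l).card = (S k \ S l).card + bsz l := by
      rw [← hs l (by omega) hl, card_sdiff_add_card]
    have d1 := hδ i j hi hij hj
    have d2 := hδ k l hk hkl hl
    have hjl : j = l := by
      rcases lt_trichotomy j l with h | h | h
      · have := bsz_lt (by omega : 1 ≤ j) h
        omega
      · exact h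
      · have := bsz_lt (by omega : 1 ≤ l) h
        omega
    subst hjl
    refine ⟨?_, rfl⟩
    rcases lt_trichotomy i k with h | h | h
    · exact absurd (by omega) (hinj i k j hi h hkl hj)
    · exact h
    · exact absurd (by omega) (hinj k i j hk h hij hj)


/-! ### the construction for `m ≥ 10`; `m = p + G` with `G = p - 2` or `G = p - 3` -/

/-- the base patterns -/
def T : ℕ → Finset (Fin 12)
  | 2 => {0, 1}
  | 3 => {0, 2, 3}
  | 4 => {0, 4, 5, 6, 7}
  | 5 => {2, 3, 4, 5, 8, 9, 10, 11}
  | 6 => {2, 3, 4, 8, 9}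
  | 7 => {2, 3, 4, 8, 9}
  | 8 => {2, 3, 8, 9, 10}
  | 9 => {1, 2, 6, 7, 8, 10}
  | 10 => {1, 5, 6, 7, 10, 11}
  | _ => ∅

def cls (p j : ℕ) : ℕ := if j ≤ 5 then j else if j ≤ p then 6 else 6 + min (j - p) 4

def P2 (p G j : ℕ) : Finset ℕ :=
  if j ≤ p then Ico 6 (min (j + 1) p) else if j < p + G then Ico (max 6 (j - p + 2)) p else ∅

def P3 (p G j : ℕ) : Finset (Fin 3) :=
  (if j = p ∨ j = p + 1 then {0} else ∅) ∪ (if G + 2 = p ∧ p ≤ j ∧ j < p + G then {1} else ∅) ∪
    (if G + 2 = p ∧ p < j ∧ j < p + G then {2} else ∅)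

def lf (p G g k : ℕ) : ℕ :=
  if g = G then (if G + 3 = p ∧ k = p then 1 else 0)
  else if g = 1 then k - 1
  else if k ≤ g + 1 then 0
  else if k = g + 2 then 2
  else if k = p then k - g
  else k - g + 1

def P4 (p G j : ℕ) : Finset (ℕ × ℕ) :=
  if j ≤ 5 then ∅ else if j ≤ p then {j} ×ˢ range (j - 1)
  else (Icc 6 p ×ˢ range p).filter (fun x => x.2 < x.1 - 1 ∧ lf p G (j - p) x.1 ≤ x.2)

def P5 (p G j : ℕ) : Finset ℕ := if j ≤ p then ∅ else (Ico 2 G).erase (j - p)

abbrev Sp : Type := Fin 12 ⊕ (ℕ × Fin 2) ⊕ Fin 3 ⊕ (ℕ × ℕ) ⊕ (ℕ × Fin 2)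

instance : DecidableEq Sp :=
  @instDecidableEqSum _ _ _ (@instDecidableEqSum _ _ _ (@instDecidableEqSum _ _ _ inferInstance))

/-- the special part of the `j`-th set -/
def sp (p G j : ℕ) : Finset Sp :=
  (T (cls p j)).disjSum (((P2 p G j) ×ˢ univ).disjSum ((P3 p G j).disjSum
    ((P4 p G j).disjSum ((P5 p G j) ×ˢ univ))))

lemma disjSum_sdiff {α β : Type} [DecidableEq α] [DecidableEq β] (s s' : Finset α)
    (t t' : Finset β) : (s.disjSum t) \ (s'.disjSum t') = (s \ s').disjSum (t \ t') := by
  ext x; cases x <;> simp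

lemma prod_sdiff {α β : Type} [DecidableEq α] [DecidableEq β] (s s' : Finset α) (t : Finset β) :
    (s ×ˢ t) \ (s' ×ˢ t) = (s \ s') ×ˢ t := by
  ext x
  simp only [mem_sdiff, mem_product]
  tauto

lemma card_sp_sdiff (p G i j : ℕ) : (sp p G i \ sp p G j).card
    = (T (cls p i) \ T (cls p j)).card + 2 * (P2 p G i \ P2 p G j).card
      + (P3 p G i \ P3 p G j).card + (P4 p G i \ P4 p G j).card
      + 2 * (P5 p G i \ P5 p G j).card := by
  unfold sp
  rw [disjSum_sdiff, disjSum_sdiff, disjSum_sdiff, disjSum_sdiff, card_disjSum, card_disjSum,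
    card_disjSum, card_disjSum, prod_sdiff, prod_sdiff, card_product, card_product]
  simp only [card_univ, Fintype.card_fin]
  ring

lemma P2_aa {p G i j : ℕ} (hij : i < j) (hj : j ≤ p) : P2 p G i \ P2 p G j = ∅ := by
  unfold P2
  rw [if_pos (by omega), if_pos hj, sdiff_eq_empty_iff_subset]
  exact Ico_subset_Ico_right (by omega)

lemma P2_ab {p G i j : ℕ} (hi : i ≤ p) (hj : p < j) (hj' : j < p + G) (hG : G + 2 ≤ p) :
    (P2 p G i \ P2 p G j).card = min (i + 1) (j - p + 2) - 6 := by
  have : P2 p G i \ P2 p G j = Ico 6 (min (i + 1) (j - p + 2)) := by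
    unfold P2
    rw [if_pos hi, if_neg (by omega), if_pos hj']
    ext x
    rw [mem_sdiff, mem_Ico, mem_Ico, mem_Ico]
    omega
  rw [this, Nat.card_Ico]

lemma P2_ac {p G i : ℕ} (hi : i ≤ p) (hG : 0 < G) :
    (P2 p G i \ P2 p G (p + G)).card = min (i + 1) p - 6 := by
  unfold P2
  rw [if_pos hi, if_neg (by omega), if_neg (by omega), sdiff_empty, Nat.card_Ico]

lemma P2_bb {p G i j : ℕ} (hi : p < i) (hij : i < j) (hj' : j < p + G) (hG : G + 2 ≤ p) :
    (P2 p G i \ P2 p G j).card = max 6 (j - p + 2) - max 6 (i - p + 2) := by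
  have : P2 p G i \ P2 p G j = Ico (max 6 (i - p + 2)) (max 6 (j - p + 2)) := by
    unfold P2
    rw [if_neg (by omega), if_pos (by omega), if_neg (by omega), if_pos hj']
    ext x
    rw [mem_sdiff, mem_Ico, mem_Ico, mem_Ico]
    omega
  rw [this, Nat.card_Ico]

lemma P2_bc {p G i : ℕ} (hi : p < i) (hij : i < p + G) :
    (P2 p G i \ P2 p G (p + G)).card = p - max 6 (i - p + 2) := by
  unfold P2
  rw [if_neg (by omega), if_pos (by omega), if_neg (by omega), if_neg (by omega), sdiff_empty,
    Nat.card_Ico]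


lemma P3_a {p G i j : ℕ} (hi : i < p) : (P3 p G i \ P3 p G j).card = 0 := by
  have : P3 p G i = ∅ := by
    unfold P3
    rw [if_neg (by omega), if_neg (by omega), if_neg (by omega)]
    rfl
  rw [this, empty_sdiff, card_empty]

lemma P3_p {p G g : ℕ} (hg : 1 ≤ g) (hG : g < G) :
    (P3 p G p \ P3 p G (p + g)).card = if g = 1 then 0 else 1 := by
  unfold P3
  split_ifs <;> first | omega | decide

lemma P3_pG {p G : ℕ} (hG : 4 ≤ G) :
    (P3 p G p \ P3 p G (p + G)).card = if G + 2 = p then 2 else 1 := by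
  unfold P3
  split_ifs <;> first | omega | decide

lemma P3_c {p G g g' : ℕ} (hg : 1 ≤ g') (hg' : g' < g) (hG : g < G) :
    (P3 p G (p + g') \ P3 p G (p + g)).card = if g' = 1 then 1 else 0 := by
  unfold P3
  split_ifs <;> first | omega | decide

lemma P3_cG {p G g' : ℕ} (hg : 1 ≤ g') (hG : g' < G) (hG' : 4 ≤ G) :
    (P3 p G (p + g') \ P3 p G (p + G)).card
      = (if g' = 1 then 1 else 0) + (if G + 2 = p then 2 else 0) := by
  unfold P3
  split_ifs <;> first | omega | decide

lemma lf_le {p G g k : ℕ} (hG : 4 ≤ G) (hp : G + 2 = p ∨ G + 3 = p) (hg : 1 ≤ g) (hg' : g ≤ G)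
    (hk : 6 ≤ k) (hk' : k ≤ p) : lf p G g k ≤ k - 1 := by
  unfold lf
  split_ifs <;> omega

lemma lf_anti {p G g g' k : ℕ} (hG : 4 ≤ G) (hp : G + 2 = p ∨ G + 3 = p) (hg : 1 ≤ g)
    (hgg : g < g') (hg' : g' ≤ G) (hk : 6 ≤ k) (hk' : k ≤ p) : lf p G g' k ≤ lf p G g k := by
  unfold lf
  split_ifs <;> omega

lemma P4_small {p G i j : ℕ} (hi : i ≤ 5) : (P4 p G i \ P4 p G j).card = 0 := by
  unfold P4
  rw [if_pos hi]; simp

lemma P4_aa {p G i j : ℕ} (hi : 6 ≤ i) (hij : i < j) (hj : j ≤ p) :
    (P4 p G i \ P4 p G j).card = i - 1 := by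
  have : P4 p G i \ P4 p G j = {i} ×ˢ range (i - 1) := by
    unfold P4
    rw [if_neg (by omega), if_pos (by omega), if_neg (by omega), if_pos (by omega)]
    ext ⟨k, t⟩
    simp only [mem_sdiff, mem_product, mem_singleton, mem_range]
    omega
  rw [this, card_product, card_singleton, card_range, one_mul]

lemma P4_ab {p G i j : ℕ} (hi : 6 ≤ i) (hip : i ≤ p) (hj : p < j)
    (hl : lf p G (j - p) i ≤ i - 1) : (P4 p G i \ P4 p G j).card = lf p G (j - p) i := by
  have : P4 p G i \ P4 p G j = {i} ×ˢ range (lf p G (j - p) i) := by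
    unfold P4
    rw [if_neg (by omega), if_pos (by omega), if_neg (by omega), if_neg (by omega)]
    ext ⟨k, t⟩
    simp only [mem_sdiff, mem_product, mem_singleton, mem_range, mem_filter, mem_Icc, not_and,
      not_le]
    constructor
    · rintro ⟨⟨rfl, h1⟩, h2⟩
      exact ⟨rfl, h2 ⟨⟨hi, hip⟩, by omega⟩ h1⟩
    · rintro ⟨rfl, h1⟩
      exact ⟨⟨rfl, by omega⟩, fun _ _ => h1⟩
  rw [this, card_product, card_singleton, card_range, one_mul]

lemma P4_bb {p G i j : ℕ} (hG : 4 ≤ G) (hp : G + 2 = p ∨ G + 3 = p) (hi : p < i) (hij : i < j)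
    (hj : j ≤ p + G) : (P4 p G i \ P4 p G j).card = 0 := by
  rw [card_eq_zero, sdiff_eq_empty_iff_subset]
  unfold P4
  rw [if_neg (by omega), if_neg (by omega), if_neg (by omega), if_neg (by omega)]
  intro x hx
  rw [mem_filter, mem_product, mem_Icc] at hx ⊢
  refine ⟨hx.1, hx.2.1, le_trans ?_ hx.2.2⟩
  exact lf_anti hG hp (by omega) (by omega) (by omega) hx.1.1.1 hx.1.1.2

lemma P5_a {p G i j : ℕ} (hi : i ≤ p) : (P5 p G i \ P5 p G j).card = 0 := by
  unfold P5
  rw [if_pos hi]; simp

lemma P5_b {p G i j : ℕ} (hi : p < i) (hij : i < j) (hj : j < p + G) :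
    (P5 p G i \ P5 p G j).card = 1 := by
  have : P5 p G i \ P5 p G j = {j - p} := by
    unfold P5
    rw [if_neg (by omega), if_neg (by omega)]
    ext x
    simp only [mem_sdiff, mem_erase, mem_Ico, mem_singleton, ne_eq]
    omega
  rw [this, card_singleton]

lemma P5_c {p G i : ℕ} (hi : p < i) :
    (P5 p G i \ P5 p G (p + G)).card = 0 := by
  rw [card_eq_zero, sdiff_eq_empty_iff_subset]
  unfold P5
  by_cases hG : p + G ≤ p
  · rw [if_pos hG, if_neg (by omega)]
    intro x hx
    rw [mem_erase, mem_Ico] at hx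
    omega
  · rw [if_neg hG, if_neg (by omega)]
    intro x hx
    rw [mem_erase, mem_Ico] at hx ⊢
    omega

/-- base part, late -/
lemma T_q {g : ℕ} (hg : 1 ≤ g) : (T 6 \ T (6 + min g 4)).card
    = if g = 1 then 0 else if g = 2 then 1 else if g = 3 then 3 else 5 := by
  rcases (by omega : g = 1 ∨ g = 2 ∨ g = 3 ∨ 4 ≤ g) with h | h | h | h
  · subst h; decide
  · subst h; decide
  · subst h; decide
  · rw [min_eq_right h, if_neg (by omega), if_neg (by omega), if_neg (by omega)]; decide

lemma T_chain {g g' : ℕ} (hg : 1 ≤ g') (hg' : g' < g) :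
    (T (6 + min g' 4) \ T (6 + min g 4)).card + (if g' = 1 then 1 else 0)
      = 2 * (min g 4 - min g' 4) := by
  rcases (by omega : g' = 1 ∨ g' = 2 ∨ g' = 3 ∨ 4 ≤ g') with h | h | h | h
  · subst h
    rcases (by omega : g = 2 ∨ g = 3 ∨ 4 ≤ g) with h | h | h
    · subst h; decide
    · subst h; decide
    · rw [min_eq_right h]; decide
  · subst h
    rcases (by omega : g = 3 ∨ 4 ≤ g) with h | h
    · subst h; decide
    · rw [min_eq_right h]; decide
  · subst h
    have h : 4 ≤ g := by omega
    rw [min_eq_right h]; decide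
  · rw [min_eq_right h, min_eq_right (by omega : 4 ≤ g), if_neg (by omega)]; simp

/-- chain differences -/
lemma diff_chain {p G i j : ℕ} (hG : 4 ≤ G) (hp : G + 2 = p ∨ G + 3 = p) (hi : p < i)
    (hij : i < j) (hj : j ≤ p + G) : (sp p G i \ sp p G j).card = 2 * (j - i) + 2 := by
  obtain ⟨g', rfl⟩ : ∃ g', i = p + g' := ⟨i - p, by omega⟩
  obtain ⟨g, rfl⟩ : ∃ g, j = p + g := ⟨j - p, by omega⟩
  rw [card_sp_sdiff]
  have c1 : cls p (p + g') = 6 + min g' 4 := by
    unfold cls; rw [if_neg (by omega), if_neg (by omega)]; simp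
  have c2 : cls p (p + g) = 6 + min g 4 := by
    unfold cls; rw [if_neg (by omega), if_neg (by omega)]; simp
  have t := T_chain (g := g) (g' := g') (by omega) (by omega)
  rw [c1, c2, P4_bb hG hp hi hij hj]
  rcases Nat.lt_or_ge g G with h | h
  · rw [P2_bb hi hij (by omega) (by omega), P3_c (by omega) (by omega) h, P5_b hi hij (by omega)]
    split_ifs at t ⊢ <;> omega
  · have hgG : g = G := by omega
    subst hgG
    rw [P2_bc hi hij, P3_cG (by omega) (by omega) hG, P5_c hi]
    split_ifs at t ⊢ <;> omega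

/-- differences between a set of the first phase and one of the second phase -/
lemma diff_late {p G i j : ℕ} (hG : 4 ≤ G) (hp : G + 2 = p ∨ G + 3 = p) (hi : 6 ≤ i) (hip : i ≤ p)
    (hpj : p < j) (hj : j ≤ p + G) :
    (sp p G i \ sp p G j).card = min (2 * i - 5) (i + (j - p) - 2) := by
  obtain ⟨g, rfl⟩ : ∃ g, j = p + g := ⟨j - p, by omega⟩
  rw [card_sp_sdiff]
  have c1 : cls p i = 6 := by
    unfold cls; rw [if_neg (by omega), if_pos (by omega)]
  have c2 : cls p (p + g) = 6 + min g 4 := by
    unfold cls; rw [if_neg (by omega), if_neg (by omega)]; simp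
  have t := T_q (g := g) (by omega)
  have hl := lf_le (k := i) hG hp (by omega : 1 ≤ g) (by omega) hi hip
  rw [c1, c2, P4_ab hi hip hpj (by rw [Nat.add_sub_cancel_left]; exact hl), P5_a hip, t,
    Nat.add_sub_cancel_left]
  rcases Nat.lt_or_ge g G with h | h
  · rw [P2_ab hip hpj (by omega) (by omega)]
    rcases Nat.lt_or_ge i p with h' | h'
    · rw [P3_a h']
      unfold lf
      split_ifs <;> omega
    · have : i = p := by omega
      subst this
      rw [P3_p (by omega) h]
      unfold lf
      split_ifs <;> omega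
  · have hgG : g = G := by omega
    subst hgG
    rw [P2_ac hip (by omega)]
    rcases Nat.lt_or_ge i p with h' | h'
    · rw [P3_a h']
      unfold lf
      split_ifs <;> omega
    · have : i = p := by omega
      subst this
      rw [P3_pG hG]
      unfold lf
      split_ifs <;> omega

lemma cls_small {p j : ℕ} (hj : j ≤ 5) : cls p j = j := by
  unfold cls; rw [if_pos hj]

lemma cls_mid {p j : ℕ} (hj : 6 ≤ j) (hj' : j ≤ p) : cls p j = 6 := by
  unfold cls; rw [if_neg (by omega), if_pos hj']

lemma cls_late {p j : ℕ} (hp : 6 ≤ p) (hj : p < j) : cls p j = 6 + min (j - p) 4 := by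
  unfold cls; rw [if_neg (by omega), if_neg (by omega)]

/-- differences starting from one of the first five sets -/
lemma diff_small {p G i j : ℕ} (hG : 4 ≤ G) (hp : G + 2 = p ∨ G + 3 = p) (hi : i ≤ 5)
    (hij : i < j) (hj : j ≤ p + G) :
    (sp p G i \ sp p G j).card = (T i \ T (cls p j)).card := by
  rw [card_sp_sdiff, cls_small hi, P3_a (by omega), P4_small hi, P5_a (by omega)]
  have h2 : P2 p G i = ∅ := by
    unfold P2
    rw [if_pos (by omega), Ico_eq_empty_iff]
    omega
  rw [h2, empty_sdiff, card_empty]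
  omega

/-- differences inside the first phase -/
lemma diff_mid {p G i j : ℕ} (hi : 6 ≤ i) (hij : i < j) (hj : j ≤ p) :
    (sp p G i \ sp p G j).card = i - 1 := by
  rw [card_sp_sdiff, cls_mid hi (by omega), cls_mid (by omega) hj, P3_a (by omega),
    P4_aa hi hij hj, P5_a (by omega), P2_aa hij hj]
  simp

lemma T_facts1 : ∀ j ∈ range 6, ∀ i' ∈ range j, ∀ i ∈ range i', 1 ≤ i →
    (T i \ T j).card ≠ (T i' \ T j).card := by decide

lemma T_facts2 : ∀ j ∈ range 6, ∀ i ∈ range j, 1 ≤ i → (T i \ T j).card ≤ j - 2 := by decide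

lemma T_facts3 : ∀ j ∈ Icc 6 10, ∀ i' ∈ range 6, ∀ i ∈ range i', 1 ≤ i →
    (T i \ T j).card ≠ (T i' \ T j).card := by decide

lemma T_facts4 : ∀ j ∈ Icc 6 7, ∀ i ∈ range 6, (T i \ T j).card ≤ 4 := by decide

lemma T_facts5 : ∀ j ∈ Icc 8 10, ∀ i ∈ range 6, (T i \ T j).card ≤ 5 ∧
    (T i \ T j).card ≠ 4 := by decide

lemma sp_bound {p G i j : ℕ} (hG : 4 ≤ G) (hp : G + 2 = p ∨ G + 3 = p) (hi : 1 ≤ i)
    (hij : i < j) (hj : j ≤ p + G) : (sp p G i \ sp p G j).card ≤ j - 2 := by
  rcases Nat.lt_or_ge 5 i with h5 | h5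
  · rcases Nat.lt_or_ge p j with hpj | hpj
    · rcases Nat.lt_or_ge p i with hpi | hpi
      · rw [diff_chain hG hp hpi hij hj]; omega
      · rw [diff_late hG hp h5 hpi hpj hj]; omega
    · rw [diff_mid h5 hij hpj]; omega
  · rw [diff_small hG hp h5 hij hj]
    rcases Nat.lt_or_ge 5 j with h5j | h5j
    · rcases Nat.lt_or_ge p j with hpj | hpj
      · rw [cls_late (by omega) hpj]
        rcases (by omega : j = p + 1 ∨ p + 2 ≤ j) with h | h
        · have := T_facts4 (6 + min (j - p) 4) (by rw [mem_Icc]; omega) i (by rw [mem_range]; omega)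
          omega
        · have := (T_facts5 (6 + min (j - p) 4) (by rw [mem_Icc]; omega) i
            (by rw [mem_range]; omega)).1
          omega
      · rw [cls_mid h5j hpj]
        have := T_facts4 6 (by decide) i (by rw [mem_range]; omega)
        omega
    · rw [cls_small h5j]
      exact T_facts2 j (by rw [mem_range]; omega) i (by rw [mem_range]; omega) hi

lemma sp_inj {p G i i' j : ℕ} (hG : 4 ≤ G) (hp : G + 2 = p ∨ G + 3 = p) (hi : 1 ≤ i)
    (hii : i < i') (hij : i' < j) (hj : j ≤ p + G) :
    (sp p G i \ sp p G j).card ≠ (sp p G i' \ sp p G j).card := by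
  rcases Nat.lt_or_ge 5 i' with h5' | h5'
  · rcases Nat.lt_or_ge 5 i with h5 | h5
    · rcases Nat.lt_or_ge p j with hpj | hpj
      · rcases Nat.lt_or_ge p i with hpi | hpi
        · rw [diff_chain hG hp hpi (by omega) hj, diff_chain hG hp (by omega) hij hj]; omega
        · rw [diff_late hG hp h5 hpi hpj hj]
          rcases Nat.lt_or_ge p i' with hpi' | hpi'
          · rw [diff_chain hG hp hpi' hij hj]; omega
          · rw [diff_late hG hp h5' hpi' hpj hj]; omega
      · rw [diff_mid h5 (by omega) hpj, diff_mid h5' hij hpj]; omega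
    · rw [diff_small hG hp h5 (by omega) hj]
      rcases Nat.lt_or_ge p j with hpj | hpj
      · rw [cls_late (by omega) hpj]
        rcases Nat.lt_or_ge p i' with hpi' | hpi'
        · rw [diff_chain hG hp hpi' hij hj]
          have := T_facts5 (6 + min (j - p) 4) (by rw [mem_Icc]; omega) i
            (by rw [mem_range]; omega)
          omega
        · rw [diff_late hG hp h5' hpi' hpj hj]
          rcases (by omega : j = p + 1 ∨ p + 2 ≤ j) with h | h
          · have := T_facts4 (6 + min (j - p) 4) (by rw [mem_Icc]; omega) i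
              (by rw [mem_range]; omega)
            omega
          · have := T_facts5 (6 + min (j - p) 4) (by rw [mem_Icc]; omega) i
              (by rw [mem_range]; omega)
            omega
      · rw [cls_mid (by omega) hpj, diff_mid h5' hij hpj]
        have := T_facts4 6 (by decide) i (by rw [mem_range]; omega)
        omega
  · rw [diff_small hG hp (by omega) (by omega) hj, diff_small hG hp h5' hij hj]
    rcases Nat.lt_or_ge 5 j with h5j | h5j
    · have hc : cls p j ∈ Icc 6 10 := by
        unfold cls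
        rw [mem_Icc]
        split_ifs <;> omega
      exact T_facts3 _ hc i' (by rw [mem_range]; omega) i (by rw [mem_range]; omega) hi
    · rw [cls_small h5j]
      exact T_facts1 j (by rw [mem_range]; omega) i' (by rw [mem_range]; omega) i
        (by rw [mem_range]; omega) hi

lemma card_sp (p G j : ℕ) : (sp p G j).card
    = (T (cls p j)).card + 2 * (P2 p G j).card
      + (P3 p G j).card + (P4 p G j).card + 2 * (P5 p G j).card := by
  unfold sp
  rw [card_disjSum, card_disjSum, card_disjSum, card_disjSum, card_product, card_product]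
  simp only [card_univ, Fintype.card_fin]
  ring

lemma T_card : (T 1).card = 0 ∧ (T 2).card = 2 ∧ (T 3).card = 3 ∧ (T 4).card = 5 ∧
    (T 5).card = 8 ∧ (T 6).card = 5 ∧ (T 7).card = 5 := by decide

lemma card_sp_small {p G j : ℕ} (hp : 6 ≤ p) (hj : j ≤ 5) : (sp p G j).card = (T j).card := by
  rw [card_sp, cls_small hj]
  unfold P2 P3 P4 P5
  rw [if_pos (by omega), if_neg (by omega), if_neg (by omega), if_neg (by omega), if_pos hj,
    if_pos (by omega), Nat.card_Ico]
  have : min (j + 1) p - 6 = 0 := by omega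
  rw [this]; simp

lemma card_sp_mid {p G j : ℕ} (hj : 6 ≤ j) (hjp : j < p) : (sp p G j).card = 3 * j - 6 := by
  rw [card_sp, cls_mid hj (by omega), T_card.2.2.2.2.2.1]
  unfold P2 P3 P4 P5
  rw [if_pos (by omega), if_neg (by omega), if_neg (by omega), if_neg (by omega),
    if_neg (by omega), if_pos (by omega), if_pos (by omega), Nat.card_Ico, card_product]
  simp only [card_singleton, card_range, empty_union, card_empty]
  omega

lemma card_sp_p {p G : ℕ} (hG : 4 ≤ G) (hp : G + 2 = p ∨ G + 3 = p) :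
    (sp p G p).card = 3 * p - 7 + (if G + 2 = p then 1 else 0) := by
  rw [card_sp, cls_mid (by omega) (by omega), T_card.2.2.2.2.2.1]
  have h3 : (P3 p G p).card = 1 + (if G + 2 = p then 1 else 0) := by
    unfold P3
    split_ifs <;> first | omega | decide
  have h2 : (P2 p G p).card = p - 6 := by
    unfold P2
    rw [if_pos (by omega), Nat.card_Ico]
    omega
  have h4 : (P4 p G p).card = p - 1 := by
    unfold P4
    rw [if_neg (by omega), if_pos (by omega), card_product, card_singleton, card_range, one_mul]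
  have h5 : (P5 p G p).card = 0 := by
    unfold P5
    rw [if_pos (by omega), card_empty]
  rw [h3, h2, h4, h5]
  split_ifs <;> omega

lemma card_sp_p1 {p G : ℕ} (hG : 4 ≤ G) (hp : G + 2 = p ∨ G + 3 = p) :
    (sp p G (p + 1)).card = 2 * p + 2 * G - 10 + (if G + 2 = p then 2 else 0) := by
  have hc : cls p (p + 1) = 7 := by
    rw [cls_late (by omega) (by omega)]; simp
  rw [card_sp, hc, T_card.2.2.2.2.2.2]
  have h3 : (P3 p G (p + 1)).card = 1 + (if G + 2 = p then 2 else 0) := by
    unfold P3
    split_ifs <;> first | omega | decide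
  have h2 : (P2 p G (p + 1)).card = p - 6 := by
    unfold P2
    rw [if_neg (by omega), if_pos (by omega), Nat.card_Ico]
    omega
  have h4 : (P4 p G (p + 1)).card = 0 := by
    rw [card_eq_zero, eq_empty_iff_forall_notMem]
    intro x hx
    unfold P4 at hx
    rw [if_neg (by omega), if_neg (by omega), mem_filter] at hx
    unfold lf at hx
    rw [if_neg (by omega), if_pos (by omega)] at hx
    omega
  have h5 : (P5 p G (p + 1)).card = G - 2 := by
    unfold P5
    rw [if_neg (by omega)]
    have : (Ico 2 G).erase (p + 1 - p) = Ico 2 G := by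
      apply erase_eq_of_notMem
      rw [mem_Ico]; omega
    rw [this, Nat.card_Ico]
  rw [h3, h2, h4, h5]
  split_ifs <;> omega

lemma T_new : (T 8 \ T 7).card = 1 ∧ (T 9 \ T 8).card = 3 ∧ (T 10 \ T 9).card = 2 := by decide

lemma P2_new {p G j : ℕ} (hj : p < j) : P2 p G (j + 1) \ P2 p G j = ∅ := by
  rw [sdiff_eq_empty_iff_subset]
  unfold P2
  rw [if_neg (by omega : ¬ (j + 1 ≤ p)), if_neg (by omega : ¬ (j ≤ p))]
  by_cases h : j + 1 < p + G
  · rw [if_pos h, if_pos (by omega)]
    exact Ico_subset_Ico_left (by omega)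
  · rw [if_neg h]
    exact empty_subset _

lemma P3_new {p G j : ℕ} (hj : p < j) : P3 p G (j + 1) \ P3 p G j = ∅ := by
  unfold P3
  split_ifs <;> first | omega | decide

lemma P5_new {p G j : ℕ} (hj : p < j) : (P5 p G (j + 1) \ P5 p G j).card ≤ 1 := by
  have : P5 p G (j + 1) \ P5 p G j ⊆ {j - p} := by
    unfold P5
    rw [if_neg (by omega), if_neg (by omega)]
    intro x hx
    simp only [mem_sdiff, mem_erase, mem_Ico] at hx
    rw [mem_singleton]
    omega
  exact (card_le_card this).trans (by simp)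

lemma P5_new1 {p G : ℕ} : (P5 p G (p + 1 + 1) \ P5 p G (p + 1)).card = 0 := by
  rw [card_eq_zero, sdiff_eq_empty_iff_subset]
  unfold P5
  rw [if_neg (by omega), if_neg (by omega)]
  intro x hx
  rw [mem_erase, mem_Ico] at hx ⊢
  omega

lemma mem_P4_new {p G j : ℕ} (hp : 6 ≤ p) (hj : p < j) {x : ℕ × ℕ}
    (hx : x ∈ P4 p G (j + 1) \ P4 p G j) :
    6 ≤ x.1 ∧ x.1 ≤ p ∧ lf p G (j - p + 1) x.1 ≤ x.2 ∧ x.2 < lf p G (j - p) x.1 := by
  unfold P4 at hx
  rw [if_neg (by omega), if_neg (by omega), if_neg (by omega), if_neg (by omega)] at hx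
  simp only [mem_sdiff, mem_filter, mem_product, mem_Icc, not_and, not_le] at hx
  have h1 : j + 1 - p = j - p + 1 := by omega
  rw [h1] at hx
  exact ⟨hx.1.1.1.1, hx.1.1.1.2, hx.1.2.2, hx.2 hx.1.1 hx.1.2.1⟩

lemma P4_new1 {p G : ℕ} (hG : 4 ≤ G) (hp : G + 2 = p ∨ G + 3 = p) :
    (P4 p G (p + 1 + 1) \ P4 p G (p + 1)).card ≤ 1 := by
  have : P4 p G (p + 1 + 1) \ P4 p G (p + 1) ⊆ {(p, p - 2)} := by
    intro x hx
    have h := mem_P4_new (by omega) (by omega) hx
    rw [mem_singleton]
    simp only [Nat.add_sub_cancel_left] at h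
    unfold lf at h
    have h1 : x.1 = p ∧ x.2 = p - 2 := by
      split_ifs at h <;> omega
    exact Prod.ext h1.1 h1.2
  exact (card_le_card this).trans (by simp)

lemma P4_new {p G j : ℕ} (hp : G + 2 = p ∨ G + 3 = p) (hj : p + 2 ≤ j)
    (hj' : j + 1 < p + G) : (P4 p G (j + 1) \ P4 p G j).card ≤ p - 3 := by
  have : P4 p G (j + 1) \ P4 p G j ⊆
      (Icc 6 p).image (fun k => (k, lf p G (j - p + 1) k)) ∪
        {(j - p + 2, 1), (j - p + 3, 3)} := by
    intro x hx
    have h := mem_P4_new (by omega) (by omega) hx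
    rw [mem_union, mem_image, mem_insert, mem_singleton]
    by_cases h0 : x.2 = lf p G (j - p + 1) x.1
    · left
      exact ⟨x.1, by rw [mem_Icc]; omega, Prod.ext rfl h0.symm⟩
    · right
      have h1 : (x.1 = j - p + 2 ∧ x.2 = 1) ∨ (x.1 = j - p + 3 ∧ x.2 = 3) := by
        unfold lf at h h0
        split_ifs at h h0 <;> omega
      rcases h1 with h1 | h1
      · exact Or.inl (Prod.ext h1.1 h1.2)
      · exact Or.inr (Prod.ext h1.1 h1.2)
  have h1 := card_le_card this
  have h2 := card_union_le ((Icc 6 p).image (fun k => (k, lf p G (j - p + 1) k)))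
    {(j - p + 2, 1), (j - p + 3, 3)}
  have h3 : ((Icc 6 p).image (fun k => (k, lf p G (j - p + 1) k))).card ≤ (Icc 6 p).card :=
    card_image_le
  have h4 : ({(j - p + 2, 1), (j - p + 3, 3)} : Finset (ℕ × ℕ)).card ≤ 2 := card_le_two
  rw [Nat.card_Icc] at h3
  omega

lemma P4_newG {p G j : ℕ} (hG : 4 ≤ G) (hp : G + 2 = p ∨ G + 3 = p) (hj : j + 1 = p + G) :
    (P4 p G (j + 1) \ P4 p G j).card ≤ if G + 2 = p then 5 else 9 := by
  have hjG : j - p + 1 = G := by omega
  rcases hp with h | h
  · have : P4 p G (j + 1) \ P4 p G j ⊆ ({p - 1} ×ˢ range 2) ∪ ({p} ×ˢ range 3) := by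
      intro x hx
      have h' := mem_P4_new (by omega) (by omega) hx
      rw [mem_union, mem_product, mem_product, mem_singleton, mem_singleton, mem_range, mem_range]
      unfold lf at h'
      split_ifs at h' <;> omega
    have h1 := card_le_card this
    have h2 := card_union_le (({p - 1} : Finset ℕ) ×ˢ range 2) ({p} ×ˢ range 3)
    rw [card_product, card_product, card_singleton, card_singleton, card_range, card_range] at h2
    rw [if_pos h]
    omega
  · have : P4 p G (j + 1) \ P4 p G j ⊆ ({p - 2} ×ˢ range 2) ∪ (({p - 1} ×ˢ range 4) ∪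
        ({p} ×ˢ Ico 1 4)) := by
      intro x hx
      have h' := mem_P4_new (by omega) (by omega) hx
      rw [mem_union, mem_union, mem_product, mem_product, mem_product, mem_singleton,
        mem_singleton, mem_singleton, mem_range, mem_range, mem_Ico]
      unfold lf at h'
      split_ifs at h' <;> omega
    have h1 := card_le_card this
    have h2 := card_union_le (({p - 2} : Finset ℕ) ×ˢ range 2) (({p - 1} ×ˢ range 4) ∪
        ({p} ×ˢ Ico 1 4))
    have h3 := card_union_le (({p - 1} : Finset ℕ) ×ˢ range 4) ({p} ×ˢ Ico 1 4)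
    rw [card_product, card_singleton, card_range] at h2
    rw [card_product, card_product, card_singleton, card_singleton, card_range,
      Nat.card_Ico] at h3
    rw [if_neg (by omega)]
    omega

/-- growth of the special part is slow -/
lemma sp_step {p G j : ℕ} (hG : 4 ≤ G) (hp : G + 2 = p ∨ G + 3 = p) (hj : 6 ≤ j)
    (hj' : j < p + G) : (sp p G (j + 1)).card ≤ (sp p G j).card + (j - 1) := by
  rcases lt_trichotomy j p with h | h | h
  · rw [card_sp_mid hj h]
    rcases Nat.lt_or_ge (j + 1) p with h1 | h1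
    · rw [card_sp_mid (by omega) h1]; omega
    · have : j + 1 = p := by omega
      rw [this, card_sp_p hG hp]
      split_ifs <;> omega
  · subst h
    rw [card_sp_p hG hp, card_sp_p1 hG hp]
    split_ifs <;> omega
  · have e1 := card_sdiff_add_card_inter (sp p G j) (sp p G (j + 1))
    have e2 := card_sdiff_add_card_inter (sp p G (j + 1)) (sp p G j)
    rw [inter_comm] at e2
    rw [diff_chain hG hp h (by omega) (by omega)] at e1
    have e3 := card_sp_sdiff p G (j + 1) j
    rw [P2_new h, P3_new h, card_empty, card_empty, cls_late (by omega) h,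
      cls_late (by omega) (by omega : p < j + 1)] at e3
    rcases (by omega : j = p + 1 ∨ j = p + 2 ∨ j = p + 3 ∨ p + 4 ≤ j) with h1 | h1 | h1 | h1
    · subst h1
      have e4 : p + 1 + 1 - p = 2 := by omega
      have e5 : p + 1 - p = 1 := by omega
      rw [e4, e5] at e3
      have e6 := T_new.1
      have e7 := P4_new1 hG hp
      have e8 := P5_new1 (p := p) (G := G)
      simp only [show 6 + min 2 4 = 8 from rfl, show 6 + min 1 4 = 7 from rfl] at e3
      omega
    · subst h1
      have e4 : p + 2 + 1 - p = 3 := by omega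
      have e5 : p + 2 - p = 2 := by omega
      rw [e4, e5] at e3
      have e6 := T_new.2.1
      have e7 := P4_new hp (by omega : p + 2 ≤ p + 2) (by omega)
      have e8 := P5_new (p := p) (G := G) (j := p + 2) (by omega)
      simp only [show 6 + min 3 4 = 9 from rfl, show 6 + min 2 4 = 8 from rfl] at e3
      omega
    · subst h1
      have e4 : p + 3 + 1 - p = 4 := by omega
      have e5 : p + 3 - p = 3 := by omega
      rw [e4, e5] at e3
      have e6 := T_new.2.2
      have e8 := P5_new (p := p) (G := G) (j := p + 3) (by omega)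
      simp only [show 6 + min 4 4 = 10 from rfl, show 6 + min 3 4 = 9 from rfl] at e3
      rcases Nat.lt_or_ge (p + 3 + 1) (p + G) with h2 | h2
      · have e7 := P4_new hp (by omega : p + 2 ≤ p + 3) h2
        omega
      · have e7 := P4_newG hG hp (by omega : p + 3 + 1 = p + G)
        split_ifs at e7 <;> omega
    · have e8 := P5_new (p := p) (G := G) (j := j) (by omega)
      rw [min_eq_right (by omega), min_eq_right (by omega), sdiff_self] at e3
      simp only [bot_eq_empty, card_empty] at e3
      rcases Nat.lt_or_ge (j + 1) (p + G) with h2 | h2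
      · have e7 := P4_new hp (by omega : p + 2 ≤ j) h2
        omega
      · have e7 := P4_newG hG hp (by omega : j + 1 = p + G)
        split_ifs at e7 <;> omega

lemma sp_le {p G j : ℕ} (hG : 4 ≤ G) (hp : G + 2 = p ∨ G + 3 = p) (hj : 2 ≤ j)
    (hj' : j ≤ p + G) : (sp p G j).card ≤ bsz j := by
  rcases Nat.lt_or_ge j 6 with h | h
  · rw [card_sp_small (by omega) (by omega)]
    rcases (by omega : j = 2 ∨ j = 3 ∨ j = 4 ∨ j = 5) with rfl | rfl | rfl | rfl <;> decide
  · induction j, h using Nat.le_induction with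
    | base =>
      rcases Nat.lt_or_ge 6 p with h6 | h6
      · rw [card_sp_mid (by omega) h6]; decide
      · have h7 : p = 6 := by omega
        have h8 : G = 4 := by omega
        subst h7 h8
        rw [card_sp_p (by omega) (by omega)]; decide
    | succ j hj6 ih =>
      have h1 := ih (by omega) (by omega)
      have h2 := sp_step hG hp hj6 (by omega)
      rw [bsz_succ (by omega)]
      omega

/-- number of elements that stay forever once they appear -/
def wsz (p G j : ℕ) : ℕ := if j ≤ 5 then 0 else bsz j - (sp p G j).card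

lemma wsz_mono {p G i j : ℕ} (hG : 4 ≤ G) (hp : G + 2 = p ∨ G + 3 = p) (hij : i ≤ j)
    (hj : j ≤ p + G) : wsz p G i ≤ wsz p G j := by
  rcases Nat.lt_or_ge i 6 with h | h
  · unfold wsz
    rw [if_pos (by omega)]
    exact Nat.zero_le _
  · induction j, hij using Nat.le_induction with
    | base => exact le_rfl
    | succ j hij ih =>
      refine (ih (by omega)).trans ?_
      unfold wsz
      rw [if_neg (by omega), if_neg (by omega)]
      have h1 := sp_step hG hp (by omega : 6 ≤ j) (by omega)
      have h2 := bsz_succ (by omega : 1 ≤ j)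
      omega

instance : DecidableEq (Sp ⊕ ℕ) := @instDecidableEqSum _ _ _ _

/-- the `j`-th set of the construction -/
def SS (p G j : ℕ) : Finset (Sp ⊕ ℕ) := (sp p G j).disjSum (range (wsz p G j))

lemma SS_sdiff {p G i j : ℕ} (hG : 4 ≤ G) (hp : G + 2 = p ∨ G + 3 = p) (hij : i ≤ j)
    (hj : j ≤ p + G) : (SS p G i \ SS p G j).card = (sp p G i \ sp p G j).card := by
  unfold SS
  rw [disjSum_sdiff, card_disjSum]
  have : range (wsz p G i) \ range (wsz p G j) = ∅ := by
    rw [sdiff_eq_empty_iff_subset]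
    exact range_subset_range.2 (wsz_mono hG hp hij hj)
  rw [this, card_empty, add_zero]

lemma SS_card {p G j : ℕ} (hG : 4 ≤ G) (hp : G + 2 = p ∨ G + 3 = p) (hj : 2 ≤ j)
    (hj' : j ≤ p + G) : (SS p G j).card = bsz j := by
  unfold SS
  rw [card_disjSum, card_range]
  have h1 := sp_le hG hp hj hj'
  unfold wsz
  by_cases h : j ≤ 5
  · rw [if_pos h, card_sp_small (by omega) h]
    rcases (by omega : j = 2 ∨ j = 3 ∨ j = 4 ∨ j = 5) with rfl | rfl | rfl | rfl <;> decide
  · rw [if_neg h]
    omega

/-- the special universe -/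
def UV (p G : ℕ) : Finset Sp :=
  (univ : Finset (Fin 12)).disjSum (((Ico 6 p) ×ˢ univ).disjSum
    ((if G + 2 = p then univ else {0}).disjSum
    (((Icc 6 p ×ˢ range p).filter (fun x => x.2 < x.1 - 1)).disjSum ((Ico 2 G) ×ˢ univ))))

def UU (p G : ℕ) : Finset (Sp ⊕ ℕ) := (UV p G).disjSum (range (wsz p G (p + G)))

lemma disjSum_mono' {α β : Type} {s s' : Finset α} {t t' : Finset β} (h : s ⊆ s') (h' : t ⊆ t') :
    s.disjSum t ⊆ s'.disjSum t' := disjSum_mono h h'

lemma SS_subset {p G j : ℕ} (hG : 4 ≤ G) (hp : G + 2 = p ∨ G + 3 = p) (hj : j ≤ p + G) :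
    SS p G j ⊆ UU p G := by
  unfold SS UU sp UV
  refine disjSum_mono (disjSum_mono (subset_univ _) (disjSum_mono ?_ (disjSum_mono ?_
    (disjSum_mono ?_ ?_)))) (range_subset_range.2 (wsz_mono hG hp hj le_rfl))
  · apply product_subset_product _ (subset_univ _)
    unfold P2
    intro x hx
    split_ifs at hx
    · rw [mem_Ico] at hx ⊢; omega
    · rw [mem_Ico] at hx ⊢; omega
    · exact absurd hx (notMem_empty x)
  · split_ifs with h
    · exact subset_univ _
    · unfold P3
      rw [if_neg (by omega : ¬ (G + 2 = p ∧ p ≤ j ∧ j < p + G)),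
        if_neg (by omega : ¬ (G + 2 = p ∧ p < j ∧ j < p + G)), union_empty, union_empty]
      split_ifs
      · exact Subset.rfl
      · exact empty_subset _
  · intro x hx
    unfold P4 at hx
    split_ifs at hx
    · exact absurd hx (notMem_empty x)
    · rw [mem_product, mem_singleton, mem_range] at hx
      rw [mem_filter, mem_product, mem_Icc, mem_range]
      omega
    · rw [mem_filter] at hx ⊢
      exact ⟨hx.1, hx.2.1⟩
  · apply product_subset_product _ (subset_univ _)
    unfold P5
    split_ifs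
    · exact empty_subset _
    · exact erase_subset _ _

lemma T_last : ((univ : Finset (Fin 12)) \ T 10).card = 6 := by decide

lemma UV_sdiff {p G : ℕ} (hG : 4 ≤ G) (hp : G + 2 = p ∨ G + 3 = p) :
    (UV p G \ sp p G (p + G)).card = p + G - 1 := by
  unfold UV sp
  rw [disjSum_sdiff, disjSum_sdiff, disjSum_sdiff, disjSum_sdiff, card_disjSum, card_disjSum,
    card_disjSum, card_disjSum, prod_sdiff, prod_sdiff, card_product, card_product,
    cls_late (by omega) (by omega)]
  have h0 : min (p + G - p) 4 = 4 := by omega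
  rw [h0, T_last]
  have h2 : (Ico 6 p \ P2 p G (p + G)).card = p - 6 := by
    unfold P2
    rw [if_neg (by omega), if_neg (by omega), sdiff_empty, Nat.card_Ico]
  have h3 : ((if G + 2 = p then (univ : Finset (Fin 3)) else {0}) \ P3 p G (p + G)).card
      = if G + 2 = p then 3 else 1 := by
    unfold P3
    split_ifs <;> first | omega | decide
  have h4 : ((Icc 6 p ×ˢ range p).filter (fun x : ℕ × ℕ => x.2 < x.1 - 1) \
      P4 p G (p + G)).card = if G + 2 = p then 0 else 1 := by
    unfold P4
    rw [if_neg (by omega), if_neg (by omega)]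
    rcases hp with h | h
    · rw [if_pos h, card_eq_zero, sdiff_eq_empty_iff_subset]
      intro x hx
      rw [mem_filter] at hx ⊢
      refine ⟨hx.1, hx.2, ?_⟩
      unfold lf
      rw [if_pos (by omega), if_neg (by omega)]
      exact Nat.zero_le _
    · rw [if_neg (by omega)]
      rw [card_eq_one]
      refine ⟨(p, 0), ?_⟩
      ext x
      rw [mem_sdiff, mem_filter, mem_filter, mem_singleton, Nat.add_sub_cancel_left]
      constructor
      · rintro ⟨⟨h1, h2⟩, h3⟩
        have h5 : ¬ (lf p G G x.1 ≤ x.2) := fun h6 => h3 ⟨h1, h2, h6⟩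
        unfold lf at h5
        rw [if_pos rfl] at h5
        split_ifs at h5 with h6
        · exact Prod.ext h6.2 (by simp only; omega)
        · omega
      · rintro rfl
        refine ⟨⟨by rw [mem_product, mem_Icc, mem_range]; simp only; omega, by simp only; omega⟩, ?_⟩
        rintro ⟨_, _, h3⟩
        unfold lf at h3
        rw [if_pos rfl, if_pos ⟨h, rfl⟩] at h3
        simp only at h3
        omega
  have h5 : (Ico 2 G \ P5 p G (p + G)).card = 0 := by
    rw [card_eq_zero, sdiff_eq_empty_iff_subset]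
    unfold P5
    rw [if_neg (by omega)]
    intro x hx
    rw [mem_erase]
    rw [mem_Ico] at hx ⊢
    omega
  rw [h2, h3, h4, h5]
  simp only [card_univ, Fintype.card_fin]
  split_ifs <;> omega

lemma UU_card {p G : ℕ} (hG : 4 ≤ G) (hp : G + 2 = p ∨ G + 3 = p) :
    (UU p G).card = (p + G).choose 2 + 2 := by
  have h1 : (UV p G).card = (sp p G (p + G)).card + (p + G - 1) := by
    have hsub : sp p G (p + G) ⊆ UV p G := by
      intro x hx
      have h2 : (Sum.inl x : Sp ⊕ ℕ) ∈ SS p G (p + G) := by
        unfold SS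
        rw [inl_mem_disjSum]
        exact hx
      have h3 := SS_subset hG hp le_rfl h2
      unfold UU at h3
      rw [inl_mem_disjSum] at h3
      exact h3
    have h2 := UV_sdiff hG hp
    have h3 := card_sdiff_add_card_inter (UV p G) (sp p G (p + G))
    rw [inter_eq_right.2 hsub] at h3
    omega
  unfold UU
  rw [card_disjSum, card_range, h1]
  have h2 := sp_le hG hp (by omega : 2 ≤ p + G) le_rfl
  have h3 := bsz_succ (by omega : 1 ≤ p + G)
  have h4 : bsz (p + G + 1) = (p + G).choose 2 + 2 := by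
    unfold bsz
    simp
  unfold wsz
  rw [if_neg (by omega)]
  omega

lemma exists_large {m n : ℕ} (hm : 10 ≤ m) (hn : m.choose 2 + 2 ≤ n) :
    ∃ A : Fin m → Finset (Fin n), IntersectionDistinct A := by
  obtain ⟨p, G, hG, hp, rfl⟩ : ∃ p G, 4 ≤ G ∧ (G + 2 = p ∨ G + 3 = p) ∧ m = p + G := by
    rcases Nat.even_or_odd' m with ⟨k, h | h⟩
    · exact ⟨k + 1, k - 1, by omega, Or.inl (by omega), by omega⟩
    · exact ⟨k + 2, k - 1, by omega, Or.inr (by omega), by omega⟩
  refine key (SS p G) (UU p G) (fun j _ hj => SS_subset hG hp hj)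
    (by rw [UU_card hG hp]; exact hn) ?_ (fun j hj hj' => SS_card hG hp hj hj') ?_ ?_
  · have h1 : (SS p G 1).card = 0 := by
      unfold SS
      rw [card_disjSum, card_sp_small (by omega) (by omega), T_card.1]
      unfold wsz
      rw [if_pos (by omega), card_range]
    exact card_eq_zero.1 h1
  · intro i j hi hij hj
    rw [SS_sdiff hG hp hij.le hj]
    exact sp_bound hG hp hi hij hj
  · intro i i' j hi hii hij hj
    rw [SS_sdiff hG hp (by omega) hj, SS_sdiff hG hp hij.le hj]
    exact sp_inj hG hp hi hii hij hj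

/-- explicit family with 2 members -/
def E2 : ℕ → Finset ℕ
  | 2 => {0}
  | _ => ∅

lemma exists_2 {n : ℕ} (hn : 1 ≤ n) :
    ∃ A : Fin 2 → Finset (Fin n), IntersectionDistinct A := by
  have hU : ∀ j ∈ range 3, E2 j ⊆ range 1 := by decide
  have hi : ∀ j ∈ range 3, ∀ i ∈ range j, 1 ≤ i → E2 i ≠ E2 j := by decide
  have hd : ∀ j ∈ range 3, ∀ i ∈ range j, ∀ l ∈ range 3, ∀ k ∈ range l, 1 ≤ i → 1 ≤ k →
      (E2 i ∪ E2 j).card = (E2 k ∪ E2 l).card → i = k ∧ j = l := by decide +kernel
  apply realize E2 (range 1)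
  · intro j _ hj
    exact hU j (by rw [mem_range]; omega)
  · rw [card_range]; exact hn
  · intro i j h1 hij hj
    exact hi j (by rw [mem_range]; omega) i (by rw [mem_range]; omega) h1
  · intro i j k l h1 hij hj h2 hkl hl he
    exact hd j (by rw [mem_range]; omega) i (by rw [mem_range]; omega) l
      (by rw [mem_range]; omega) k (by rw [mem_range]; omega) h1 h2 he

/-- explicit family with 3 members -/
def E3 : ℕ → Finset ℕ
  | 2 => {0}
  | 3 => {1, 2}
  | _ => ∅

lemma exists_3 {n : ℕ} (hn : 3 ≤ n) :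
    ∃ A : Fin 3 → Finset (Fin n), IntersectionDistinct A := by
  have hU : ∀ j ∈ range 4, E3 j ⊆ range 3 := by decide
  have hi : ∀ j ∈ range 4, ∀ i ∈ range j, 1 ≤ i → E3 i ≠ E3 j := by decide
  have hd : ∀ j ∈ range 4, ∀ i ∈ range j, ∀ l ∈ range 4, ∀ k ∈ range l, 1 ≤ i → 1 ≤ k →
      (E3 i ∪ E3 j).card = (E3 k ∪ E3 l).card → i = k ∧ j = l := by decide +kernel
  apply realize E3 (range 3)
  · intro j _ hj
    exact hU j (by rw [mem_range]; omega)
  · rw [card_range]; exact hn
  · intro i j h1 hij hj
    exact hi j (by rw [mem_range]; omega) i (by rw [mem_range]; omega) h1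
  · intro i j k l h1 hij hj h2 hkl hl he
    exact hd j (by rw [mem_range]; omega) i (by rw [mem_range]; omega) l
      (by rw [mem_range]; omega) k (by rw [mem_range]; omega) h1 h2 he

/-- explicit family with 4 members -/
def E4 : ℕ → Finset ℕ
  | 2 => {0}
  | 3 => {1, 2}
  | 4 => {3, 4, 5, 6}
  | _ => ∅

lemma exists_4 {n : ℕ} (hn : 7 ≤ n) :
    ∃ A : Fin 4 → Finset (Fin n), IntersectionDistinct A := by
  have hU : ∀ j ∈ range 5, E4 j ⊆ range 7 := by decide
  have hi : ∀ j ∈ range 5, ∀ i ∈ range j, 1 ≤ i → E4 i ≠ E4 j := by decide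
  have hd : ∀ j ∈ range 5, ∀ i ∈ range j, ∀ l ∈ range 5, ∀ k ∈ range l, 1 ≤ i → 1 ≤ k →
      (E4 i ∪ E4 j).card = (E4 k ∪ E4 l).card → i = k ∧ j = l := by decide +kernel
  apply realize E4 (range 7)
  · intro j _ hj
    exact hU j (by rw [mem_range]; omega)
  · rw [card_range]; exact hn
  · intro i j h1 hij hj
    exact hi j (by rw [mem_range]; omega) i (by rw [mem_range]; omega) h1
  · intro i j k l h1 hij hj h2 hkl hl he
    exact hd j (by rw [mem_range]; omega) i (by rw [mem_range]; omega) l
      (by rw [mem_range]; omega) k (by rw [mem_range]; omega) h1 h2 he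

/-- explicit family with 5 members -/
def E5 : ℕ → Finset ℕ
  | 2 => {0, 1}
  | 3 => {0, 2, 3}
  | 4 => {2, 3, 4, 5, 6}
  | 5 => {1, 4, 5, 6, 7, 8, 9, 10}
  | _ => ∅

lemma exists_5 {n : ℕ} (hn : 11 ≤ n) :
    ∃ A : Fin 5 → Finset (Fin n), IntersectionDistinct A := by
  have hU : ∀ j ∈ range 6, E5 j ⊆ range 11 := by decide
  have hi : ∀ j ∈ range 6, ∀ i ∈ range j, 1 ≤ i → E5 i ≠ E5 j := by decide
  have hd : ∀ j ∈ range 6, ∀ i ∈ range j, ∀ l ∈ range 6, ∀ k ∈ range l, 1 ≤ i → 1 ≤ k →
      (E5 i ∪ E5 j).card = (E5 k ∪ E5 l).card → i = k ∧ j = l := by decide +kernel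
  apply realize E5 (range 11)
  · intro j _ hj
    exact hU j (by rw [mem_range]; omega)
  · rw [card_range]; exact hn
  · intro i j h1 hij hj
    exact hi j (by rw [mem_range]; omega) i (by rw [mem_range]; omega) h1
  · intro i j k l h1 hij hj h2 hkl hl he
    exact hd j (by rw [mem_range]; omega) i (by rw [mem_range]; omega) l
      (by rw [mem_range]; omega) k (by rw [mem_range]; omega) h1 h2 he

/-- explicit family with 6 members -/
def E6 : ℕ → Finset ℕ
  | 2 => {0, 1}
  | 3 => {0, 2, 3}
  | 4 => {0, 4, 5, 6, 7}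
  | 5 => {1, 2, 4, 5, 8, 9, 10, 11}
  | 6 => {1, 3, 6, 7, 8, 9, 10, 12, 13, 14, 15, 16}
  | _ => ∅

lemma exists_6 {n : ℕ} (hn : 17 ≤ n) :
    ∃ A : Fin 6 → Finset (Fin n), IntersectionDistinct A := by
  have hU : ∀ j ∈ range 7, E6 j ⊆ range 17 := by decide +kernel
  have hs : ∀ j ∈ range 7, 2 ≤ j → (E6 j).card = bsz j := by decide +kernel
  have hd : ∀ j ∈ range 7, ∀ i ∈ range j, 1 ≤ i → (E6 i \ E6 j).card = i - 1 := by
    decide +kernel
  apply key E6 (range 17)
  · intro j _ hj
    exact hU j (by rw [mem_range]; omega)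
  · rw [card_range]; exact hn
  · rfl
  · intro j h2 hj
    exact hs j (by rw [mem_range]; omega) h2
  · intro i j h1 hij hj
    rw [hd j (by rw [mem_range]; omega) i (by rw [mem_range]; omega) h1]
    omega
  · intro i i' j h1 hii hij hj
    rw [hd j (by rw [mem_range]; omega) i (by rw [mem_range]; omega) h1,
      hd j (by rw [mem_range]; omega) i' (by rw [mem_range]; omega) (by omega)]
    omega

/-- explicit family with 7 members -/
def E7 : ℕ → Finset ℕ
  | 2 => {0, 1}
  | 3 => {0, 2, 3}
  | 4 => {1, 2, 4, 5, 6}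
  | 5 => {0, 4, 5, 7, 8, 9, 10, 11}
  | 6 => {0, 4, 5, 7, 12, 13, 14, 15, 16, 17, 18, 19}
  | 7 => {1, 3, 6, 8, 9, 10, 11, 12, 13, 14, 15, 16, 17, 18, 20, 21, 22}
  | _ => ∅

lemma exists_7 {n : ℕ} (hn : 23 ≤ n) :
    ∃ A : Fin 7 → Finset (Fin n), IntersectionDistinct A := by
  have hU : ∀ j ∈ range 8, E7 j ⊆ range 23 := by decide +kernel
  have hs : ∀ j ∈ range 8, 2 ≤ j → (E7 j).card = bsz j := by decide +kernel
  have hd : ∀ j ∈ range 8, ∀ i ∈ range j, 1 ≤ i → (E7 i \ E7 j).card = i - 1 := by
    decide +kernel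
  apply key E7 (range 23)
  · intro j _ hj
    exact hU j (by rw [mem_range]; omega)
  · rw [card_range]; exact hn
  · rfl
  · intro j h2 hj
    exact hs j (by rw [mem_range]; omega) h2
  · intro i j h1 hij hj
    rw [hd j (by rw [mem_range]; omega) i (by rw [mem_range]; omega) h1]
    omega
  · intro i i' j h1 hii hij hj
    rw [hd j (by rw [mem_range]; omega) i (by rw [mem_range]; omega) h1,
      hd j (by rw [mem_range]; omega) i' (by rw [mem_range]; omega) (by omega)]
    omega

/-- explicit family with 8 members -/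
def E8 : ℕ → Finset ℕ
  | 2 => {0, 1}
  | 3 => {0, 2, 3}
  | 4 => {1, 2, 4, 5, 6}
  | 5 => {0, 4, 5, 7, 8, 9, 10, 11}
  | 6 => {0, 4, 6, 7, 8, 12, 13, 14, 15, 16, 17, 18}
  | 7 => {0, 4, 6, 7, 9, 12, 13, 14, 19, 20, 21, 22, 23, 24, 25, 26, 27}
  | 8 => {1, 3, 5, 8, 10, 11, 12, 13, 15, 16, 17, 18, 19, 20, 21, 22, 23, 24, 25, 26, 27, 28, 29}
  | _ => ∅

lemma exists_8 {n : ℕ} (hn : 30 ≤ n) :
    ∃ A : Fin 8 → Finset (Fin n), IntersectionDistinct A := by
  have hU : ∀ j ∈ range 9, E8 j ⊆ range 30 := by decide +kernel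
  have hs : ∀ j ∈ range 9, 2 ≤ j → (E8 j).card = bsz j := by decide +kernel
  have hd : ∀ j ∈ range 9, ∀ i ∈ range j, 1 ≤ i → (E8 i \ E8 j).card = i - 1 := by
    decide +kernel
  apply key E8 (range 30)
  · intro j _ hj
    exact hU j (by rw [mem_range]; omega)
  · rw [card_range]; exact hn
  · rfl
  · intro j h2 hj
    exact hs j (by rw [mem_range]; omega) h2
  · intro i j h1 hij hj
    rw [hd j (by rw [mem_range]; omega) i (by rw [mem_range]; omega) h1]
    omega
  · intro i i' j h1 hii hij hj
    rw [hd j (by rw [mem_range]; omega) i (by rw [mem_range]; omega) h1,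
      hd j (by rw [mem_range]; omega) i' (by rw [mem_range]; omega) (by omega)]
    omega

/-- explicit family with 9 members -/
def E9 : ℕ → Finset ℕ
  | 2 => {0, 1}
  | 3 => {0, 2, 3}
  | 4 => {0, 4, 5, 6, 7}
  | 5 => {0, 4, 8, 9, 10, 11, 12, 13}
  | 6 => {0, 5, 8, 9, 10, 14, 15, 16, 17, 18, 19, 20}
  | 7 => {0, 4, 8, 11, 14, 15, 16, 17, 18, 21, 22, 23, 24, 25, 26, 27, 28}
  | 8 => {1, 2, 4, 5, 8, 9, 11, 14, 15, 19, 20, 21, 22, 23, 24, 25, 26, 29, 30, 31, 32, 33, 34}
  | 9 => {1, 3, 6, 7, 9, 10, 12, 13, 16, 17, 18, 19, 20, 21, 22, 23, 24, 25, 26, 27, 28, 29, 30, 31, 32, 33, 34, 35, 36, 37}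
  | _ => ∅

lemma exists_9 {n : ℕ} (hn : 38 ≤ n) :
    ∃ A : Fin 9 → Finset (Fin n), IntersectionDistinct A := by
  have hU : ∀ j ∈ range 10, E9 j ⊆ range 38 := by decide +kernel
  have hs : ∀ j ∈ range 10, 2 ≤ j → (E9 j).card = bsz j := by decide +kernel
  have hd : ∀ j ∈ range 10, ∀ i ∈ range j, 1 ≤ i → (E9 i \ E9 j).card = i - 1 := by
    decide +kernel
  apply key E9 (range 38)
  · intro j _ hj
    exact hU j (by rw [mem_range]; omega)
  · rw [card_range]; exact hn
  · rfl
  · intro j h2 hj
    exact hs j (by rw [mem_range]; omega) h2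
  · intro i j h1 hij hj
    rw [hd j (by rw [mem_range]; omega) i (by rw [mem_range]; omega) h1]
    omega
  · intro i i' j h1 hii hij hj
    rw [hd j (by rw [mem_range]; omega) i (by rw [mem_range]; omega) h1,
      hd j (by rw [mem_range]; omega) i' (by rw [mem_range]; omega) (by omega)]
    omega

lemma exists_all {m n : ℕ} (hm : 6 ≤ m) (hn : m.choose 2 + 2 ≤ n) :
    ∃ A : Fin m → Finset (Fin n), IntersectionDistinct A := by
  rcases (by omega : m = 6 ∨ m = 7 ∨ m = 8 ∨ m = 9 ∨ 10 ≤ m) with rfl | rfl | rfl | rfl | h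
  · exact exists_6 hn
  · exact exists_7 hn
  · exact exists_8 hn
  · exact exists_9 hn
  · exact exists_large h hn

end Lower


/-- the value of `f` -/
def value (n : ℕ) : ℕ :=
  if n ≤ 2 then 2 else if n ≤ 6 then 3 else if n ≤ 10 then 4 else if n ≤ 16 then 5
  else (1 + Nat.sqrt (8 * n - 15)) / 2

lemma le_formula {m n : ℕ} (hn : 2 ≤ n) (hm : 1 ≤ m) :
    m.choose 2 + 2 ≤ n ↔ m ≤ (1 + Nat.sqrt (8 * n - 15)) / 2 := by
  have h1 : m ≤ (1 + Nat.sqrt (8 * n - 15)) / 2 ↔ 2 * m - 1 ≤ Nat.sqrt (8 * n - 15) := by omega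
  rw [h1, Nat.le_sqrt]
  obtain ⟨t, rfl⟩ : ∃ t, m = t + 1 := ⟨m - 1, by omega⟩
  have h2 : (t + 1).choose 2 * 2 = (t + 1) * t := by
    rw [Nat.choose_two_right, Nat.add_sub_cancel]
    exact Nat.div_mul_cancel (by
      have := Nat.even_mul_succ_self t
      rw [mul_comm] at this
      exact this.two_dvd)
  have h3 : (2 * (t + 1) - 1) * (2 * (t + 1) - 1) = 4 * ((t + 1) * t) + 1 := by
    have : 2 * (t + 1) - 1 = 2 * t + 1 := by omega
    rw [this]; ring
  rw [h3]
  omega

/-- **Determination of `f(n)`**: for every `n ≥ 1` the largest number of members of an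
intersection-distinct family of subsets of an `n`-element set is `value n`. -/
theorem result (n : ℕ) (hn : 1 ≤ n) :
    IsGreatest {m : ℕ | ∃ A : Fin m → Finset (Fin n), IntersectionDistinct A} (value n) := by
  have hval : 17 ≤ n → 6 ≤ value n ∧ (value n).choose 2 + 2 ≤ n := by
    intro h
    have e : value n = (1 + Nat.sqrt (8 * n - 15)) / 2 := by
      unfold value
      rw [if_neg (by omega), if_neg (by omega), if_neg (by omega), if_neg (by omega)]
    have h6 : 6 ≤ value n := by
      rw [e]
      exact (le_formula (by omega) (by omega)).1 (by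
        have : Nat.choose 6 2 = 15 := by decide
        omega)
    refine ⟨h6, ?_⟩
    rw [le_formula (by omega) (by omega), ← e]
  constructor
  · show ∃ A : Fin (value n) → Finset (Fin n), IntersectionDistinct A
    rcases Nat.lt_or_ge n 17 with h | h
    · rcases (by omega : n ≤ 2 ∨ (3 ≤ n ∧ n ≤ 6) ∨ (7 ≤ n ∧ n ≤ 10) ∨ (11 ≤ n ∧ n ≤ 16)) with
        h1 | h1 | h1 | h1
      · have e : value n = 2 := by unfold value; rw [if_pos h1]
        rw [e]; exact exists_2 hn
      · have e : value n = 3 := by unfold value; rw [if_neg (by omega), if_pos h1.2]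
        rw [e]; exact exists_3 h1.1
      · have e : value n = 4 := by
          unfold value; rw [if_neg (by omega), if_neg (by omega), if_pos h1.2]
        rw [e]; exact exists_4 h1.1
      · have e : value n = 5 := by
          unfold value
          rw [if_neg (by omega), if_neg (by omega), if_neg (by omega), if_pos h1.2]
        rw [e]; exact exists_5 h1.1
    · exact exists_all (hval h).1 (hval h).2
  · rintro m ⟨A, hA⟩
    have hB := ud_of_id hA
    have hb6 : 6 ≤ m → 15 ≤ m * (m - 1) / 2 := by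
      intro h
      have h6 : 6 * (6 - 1) / 2 ≤ m * (m - 1) / 2 :=
        Nat.div_le_div_right (Nat.mul_le_mul h (Nat.sub_le_sub_right h 1))
      omega
    rcases Nat.lt_or_ge m 6 with h | h
    · have h3 : 3 ≤ m → 3 ≤ n := by
        intro h3
        have h1 := upper1 hB
        have h6 : 3 * (3 - 1) / 2 ≤ m * (m - 1) / 2 :=
          Nat.div_le_div_right (Nat.mul_le_mul h3 (Nat.sub_le_sub_right h3 1))
        omega
      have h4 : 4 ≤ m → 7 ≤ n := by
        intro h3
        have h1 := upper2 hB h3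
        have h6 : 4 * (4 - 1) / 2 ≤ m * (m - 1) / 2 :=
          Nat.div_le_div_right (Nat.mul_le_mul h3 (Nat.sub_le_sub_right h3 1))
        omega
      have h5 : 5 ≤ m → 11 ≤ n := by
        intro h3
        have h1 := upper2 hB (by omega)
        have h6 : 5 * (5 - 1) / 2 ≤ m * (m - 1) / 2 :=
          Nat.div_le_div_right (Nat.mul_le_mul h3 (Nat.sub_le_sub_right h3 1))
        omega
      rcases Nat.lt_or_ge n 17 with h7 | h7
      · unfold value
        split_ifs <;> omega
      · exact (by omega : m ≤ 6).trans (hval h7).1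
    · have h1 := upper3 hB h
      have h2 := hb6 h
      unfold value
      rw [if_neg (by omega), if_neg (by omega), if_neg (by omega), if_neg (by omega)]
      rw [← le_formula (by omega) (by omega), Nat.choose_two_right]
      exact h1

end Pool.Agent.Results.MP_6ac4e5_co.ExactValue
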